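import Pool.Agent.P.MP_4a7a83_al.F.Defs

/-!
Elementary facts on terms, structures and the classes of members.
-/

namespace Pool.Agent.P.MP_4a7a83_al.MF

set_option linter.unusedSectionVars false
set_option maxSynthPendingDepth 4

variable [Fld]

open Classical N5

section RLe

variable {V W Z : Type} [AddCommGroup V] [Module Kf V] [AddCommGroup W] [Module Kf W]
  [AddCommGroup Z] [Module Kf Z]

theorem RLe.mono {f : V →ₗ[Kf] W} {A A' : Submodule Kf V} {B B' : Submodule Kf W} (h : RLe f A B)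
    (hA : A' ≤ A) (hB : B ≤ B') : RLe f A' B' := fun v hv => hB (h v (hA hv))

theorem RLe.comp {f : V →ₗ[Kf] W} {g : W →ₗ[Kf] Z} {A : Submodule Kf V} {B : Submodule Kf W}
    {C : Submodule Kf Z} (hg : RLe g B C) (hf : RLe f A B) : RLe (g ∘ₗ f) A C :=
  fun v hv => hg _ (hf v hv)

theorem rle_iff_le_comap {f : V →ₗ[Kf] W} {A : Submodule Kf V} {B : Submodule Kf W} :
    RLe f A B ↔ A ≤ B.comap f := Iff.rfl

theorem RLe.sup_le {f : V →ₗ[Kf] W} {A A' : Submodule Kf V} {B : Submodule Kf W} (h : RLe f A B)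
    (h' : RLe f A' B) : RLe f (A ⊔ A') B :=
  rle_iff_le_comap.2 (_root_.sup_le h h')

theorem RLe.le_inf {f : V →ₗ[Kf] W} {A : Submodule Kf V} {B B' : Submodule Kf W} (h : RLe f A B)
    (h' : RLe f A B') : RLe f A (B ⊓ B') := fun v hv => ⟨h v hv, h' v hv⟩

theorem RLe.sup {f : V →ₗ[Kf] W} {A A' : Submodule Kf V} {B B' : Submodule Kf W} (h : RLe f A B)
    (h' : RLe f A' B') : RLe f (A ⊔ A') (B ⊔ B') :=
  (h.mono le_rfl le_sup_left).sup_le (h'.mono le_rfl le_sup_right)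

theorem RLe.inf {f : V →ₗ[Kf] W} {A A' : Submodule Kf V} {B B' : Submodule Kf W} (h : RLe f A B)
    (h' : RLe f A' B') : RLe f (A ⊓ A') (B ⊓ B') :=
  (h.mono inf_le_left le_rfl).le_inf (h'.mono inf_le_right le_rfl)

theorem RLe.add {f g : V →ₗ[Kf] W} {A : Submodule Kf V} {B : Submodule Kf W} (h : RLe f A B)
    (h' : RLe g A B) : RLe (f + g) A B := fun v hv => B.add_mem (h v hv) (h' v hv)

theorem RLe.sub {f g : V →ₗ[Kf] W} {A : Submodule Kf V} {B : Submodule Kf W} (h : RLe f A B)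
    (h' : RLe g A B) : RLe (f - g) A B := fun v hv => B.sub_mem (h v hv) (h' v hv)

theorem RLe.smul {f : V →ₗ[Kf] W} {A : Submodule Kf V} {B : Submodule Kf W} (h : RLe f A B)
    (r : Kf) : RLe (r • f) A B := fun v hv => B.smul_mem r (h v hv)

theorem rle_zero (A : Submodule Kf V) (B : Submodule Kf W) : RLe (0 : V →ₗ[Kf] W) A B :=
  fun _ _ => B.zero_mem

theorem rle_bot (f : V →ₗ[Kf] W) (B : Submodule Kf W) : RLe f ⊥ B := fun v hv => by
  rw [(Submodule.mem_bot Kf).1 hv, map_zero]; exact B.zero_mem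

theorem rle_top (f : V →ₗ[Kf] W) (A : Submodule Kf V) : RLe f A ⊤ := fun _ _ => trivial

/-- Passing to a smaller idempotent. -/
theorem RLe.below {e e' : V →ₗ[Kf] V} {A B : Submodule Kf V} (h : RLe e A B) (he : e' ∘ₗ e = e')
    (hB : RLe e' B B) : RLe e' A B := he ▸ hB.comp h

theorem RLe.trans_idem {e : V →ₗ[Kf] V} {A B C : Submodule Kf V} (he : e ∘ₗ e = e) (h : RLe e A B)
    (h' : RLe e B C) : RLe e A C := he ▸ h'.comp h

theorem LinkS.below {e e' : V →ₗ[Kf] V} {σ0 σ1 τ0 τ1 ρ : Submodule Kf V}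
    (h : LinkS e σ0 σ1 τ0 τ1 ρ) (he : e' ∘ₗ e = e') (hσ1 : RLe e' σ1 σ1) (hτ0 : RLe e' τ0 τ0)
    (hτ1 : RLe e' τ1 τ1) (hρ : RLe e' ρ ρ) : LinkS e' σ0 σ1 τ0 τ1 ρ :=
  ⟨h.1.below he hρ, h.2.1.below he (hσ1.sup hτ1), h.2.2.1.below he (hρ.sup hσ1),
    h.2.2.2.below he hτ0⟩

theorem TrivS.below {e e' : V →ₗ[Kf] V} {σ0 τ0 ρ : Submodule Kf V} (h : TrivS e σ0 τ0 ρ)
    (he : e' ∘ₗ e = e') (hσ0 : RLe e' σ0 σ0) (hτ0 : RLe e' τ0 τ0) (hρ : RLe e' ρ ρ) :
    TrivS e' σ0 τ0 ρ :=
  ⟨h.1.below he hρ, h.2.below he (hσ0.sup hτ0)⟩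

theorem LinkS.add {e e' : V →ₗ[Kf] V} {σ0 σ1 τ0 τ1 ρ : Submodule Kf V}
    (h : LinkS e σ0 σ1 τ0 τ1 ρ) (h' : LinkS e' σ0 σ1 τ0 τ1 ρ) : LinkS (e + e') σ0 σ1 τ0 τ1 ρ :=
  ⟨h.1.add h'.1, h.2.1.add h'.2.1, h.2.2.1.add h'.2.2.1, h.2.2.2.add h'.2.2.2⟩

theorem TrivS.add {e e' : V →ₗ[Kf] V} {σ0 τ0 ρ : Submodule Kf V} (h : TrivS e σ0 τ0 ρ)
    (h' : TrivS e' σ0 τ0 ρ) : TrivS (e + e') σ0 τ0 ρ :=
  ⟨h.1.add h'.1, h.2.add h'.2⟩

theorem linkS_zero (σ0 σ1 τ0 τ1 ρ : Submodule Kf V) : LinkS 0 σ0 σ1 τ0 τ1 ρ :=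
  ⟨rle_zero _ _, rle_zero _ _, rle_zero _ _, rle_zero _ _⟩

theorem trivS_zero (σ0 τ0 ρ : Submodule Kf V) : TrivS 0 σ0 τ0 ρ :=
  ⟨rle_zero _ _, rle_zero _ _⟩

/-- A trivial link satisfies the link axiom where `τ` is closed. -/
theorem TrivS.linkS {e : V →ₗ[Kf] V} {σ0 σ1 τ0 τ1 ρ : Submodule Kf V} (h : TrivS e σ0 τ0 ρ)
    (he : e ∘ₗ e = e) (hσ : σ0 ≤ σ1) (hτ : τ0 ≤ τ1) (hc : RLe e τ1 τ0) :
    LinkS e σ0 σ1 τ0 τ1 ρ :=
  ⟨h.1, h.2.mono le_rfl (sup_le_sup hσ hτ),
    (RLe.trans_idem he hc (h.1.mono le_sup_right le_rfl)).mono le_rfl le_sup_left,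
    hc.mono inf_le_right le_rfl⟩

theorem FlagAx.below {β : Bool} {z : Fin 5 → Submodule Kf V} {e e' : V →ₗ[Kf] V}
    (h : FlagAx β z e) (he : e' ∘ₗ e = e') (hz : ∀ k, RLe e' (z k) (z k)) : FlagAx β z e' := by
  cases β
  · exact ⟨h.1.below he (hz _), h.2.below he (hz _)⟩
  · exact ⟨h.1.below he (hz _), h.2.below he (hz _)⟩

theorem flagAx_zero (β : Bool) (z : Fin 5 → Submodule Kf V) : FlagAx β z 0 := by
  cases β <;> exact ⟨rle_zero _ _, rle_zero _ _⟩

end RLe

section Terms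

variable {X : Type}

theorem Tm.mem_sub_self (t : Tm X) : t ∈ t.sub := by
  cases t <;> simp [Tm.sub]

theorem Tm.sub_eq (t : Tm X) : t.sub = insert t t.args := by
  cases t <;> simp [Tm.sub, Tm.args]

theorem Tm.args_subset_sub (t : Tm X) : t.args ⊆ t.sub := by
  rw [t.sub_eq]; exact Finset.subset_insert _ _

theorem Tm.sub_subset_args {t u : Tm X} (h : u ∈ t.kids) : u.sub ⊆ t.args := by
  cases t <;> simp only [Tm.kids, List.mem_cons, List.not_mem_nil, or_false] at h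
  all_goals
    intro w hw
    simp only [Tm.args, Finset.mem_union]
    rcases h with rfl | rfl | rfl | rfl <;> tauto

theorem Tm.kids_mem_args {t u : Tm X} (h : u ∈ t.kids) : u ∈ t.args :=
  Tm.sub_subset_args h u.mem_sub_self

theorem Closed.union {S S' : Finset (Tm X)} (h : Closed S) (h' : Closed S') : Closed (S ∪ S') := by
  intro t ht u hu
  rcases Finset.mem_union.1 ht with ht | ht
  · exact Finset.mem_union_left _ (h t ht u hu)
  · exact Finset.mem_union_right _ (h' t ht u hu)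

theorem Closed.insert {S : Finset (Tm X)} (h : Closed S) {t : Tm X} (ht : ∀ u ∈ t.kids, u ∈ S) :
    Closed (insert t S) := by
  intro w hw u hu
  rcases Finset.mem_insert.1 hw with rfl | hw
  · exact Finset.mem_insert_of_mem (ht u hu)
  · exact Finset.mem_insert_of_mem (h w hw u hu)

theorem closed_empty : Closed (∅ : Finset (Tm X)) := fun _ h => by simp at h

theorem closed_sub_args (t : Tm X) : Closed t.sub ∧ Closed t.args := by
  have key : Closed t.args → Closed t.sub ∧ Closed t.args := fun h =>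
    ⟨by rw [t.sub_eq]; exact h.insert fun u hu => Tm.kids_mem_args hu, h⟩
  induction t with
  | bot => exact key closed_empty
  | fl x k j => exact key closed_empty
  | dg j j' => exact key closed_empty
  | sup s t hs ht =>
    exact key ((hs fun h => ⟨by rw [s.sub_eq]; exact h.insert fun u hu => Tm.kids_mem_args hu,
      h⟩).1.union (ht fun h => ⟨by rw [t.sub_eq]; exact h.insert fun u hu => Tm.kids_mem_args hu,
      h⟩).1)
  | inf s t hs ht =>
    exact key ((hs fun h => ⟨by rw [s.sub_eq]; exact h.insert fun u hu => Tm.kids_mem_args hu,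
      h⟩).1.union (ht fun h => ⟨by rw [t.sub_eq]; exact h.insert fun u hu => Tm.kids_mem_args hu,
      h⟩).1)
  | lk Y p s0 s1 t0 t1 h0 h1 h2 h3 =>
    have k : ∀ s : Tm X, Closed s.args → Closed s.sub ∧ Closed s.args := fun s h =>
      ⟨by rw [s.sub_eq]; exact h.insert fun u hu => Tm.kids_mem_args hu, h⟩
    exact key ((((h0 (k _)).1.union (h1 (k _)).1).union (h2 (k _)).1).union (h3 (k _)).1)

theorem closed_sub (t : Tm X) : Closed t.sub := (closed_sub_args t).1

theorem closed_args (t : Tm X) : Closed t.args := (closed_sub_args t).2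

theorem Closed.sub_subset {S : Finset (Tm X)} (hS : Closed S) {t : Tm X} (ht : t ∈ S) :
    t.sub ⊆ S := by
  induction t with
  | bot => simpa [Tm.sub] using ht
  | fl x k j => simpa [Tm.sub] using ht
  | dg j j' => simpa [Tm.sub] using ht
  | sup s t hs ht' =>
    simp only [Tm.sub, Finset.insert_subset_iff, Finset.union_subset_iff]
    exact ⟨ht, hs (hS _ ht _ (by simp [Tm.kids])), ht' (hS _ ht _ (by simp [Tm.kids]))⟩
  | inf s t hs ht' =>
    simp only [Tm.sub, Finset.insert_subset_iff, Finset.union_subset_iff]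
    exact ⟨ht, hs (hS _ ht _ (by simp [Tm.kids])), ht' (hS _ ht _ (by simp [Tm.kids]))⟩
  | lk Y p s0 s1 t0 t1 h0 h1 h2 h3 =>
    simp only [Tm.sub, Finset.insert_subset_iff, Finset.union_subset_iff]
    exact ⟨ht, ⟨⟨h0 (hS _ ht _ (by simp [Tm.kids])), h1 (hS _ ht _ (by simp [Tm.kids]))⟩,
      h2 (hS _ ht _ (by simp [Tm.kids]))⟩, h3 (hS _ ht _ (by simp [Tm.kids]))⟩

theorem Closed.args_subset {S : Finset (Tm X)} (hS : Closed S) {t : Tm X} (ht : t ∈ S) :
    t.args ⊆ S := t.args_subset_sub.trans (hS.sub_subset ht)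

theorem Closed.args_subset_of_kids {S : Finset (Tm X)} (hS : Closed S) {t : Tm X}
    (ht : ∀ u ∈ t.kids, u ∈ S) : t.args ⊆ S := by
  cases t <;> simp only [Tm.args, Finset.union_subset_iff, Finset.empty_subset]
  · exact ⟨hS.sub_subset (ht _ (by simp [Tm.kids])), hS.sub_subset (ht _ (by simp [Tm.kids]))⟩
  · exact ⟨hS.sub_subset (ht _ (by simp [Tm.kids])), hS.sub_subset (ht _ (by simp [Tm.kids]))⟩
  · exact ⟨⟨⟨hS.sub_subset (ht _ (by simp [Tm.kids])), hS.sub_subset (ht _ (by simp [Tm.kids]))⟩,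
      hS.sub_subset (ht _ (by simp [Tm.kids]))⟩, hS.sub_subset (ht _ (by simp [Tm.kids]))⟩

theorem Tm.supp_subset_of_mem_sub {t u : Tm X} (h : u ∈ t.sub) : u.supp ⊆ t.supp := by
  induction t with
  | bot => simp [Tm.sub] at h; rw [h]
  | fl x k j => simp [Tm.sub] at h; rw [h]
  | dg j j' => simp [Tm.sub] at h; rw [h]
  | sup s t hs ht =>
    simp only [Tm.sub, Finset.mem_insert, Finset.mem_union] at h
    rcases h with rfl | h | h
    exacts [le_rfl, (hs h).trans Set.subset_union_left, (ht h).trans Set.subset_union_right]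
  | inf s t hs ht =>
    simp only [Tm.sub, Finset.mem_insert, Finset.mem_union] at h
    rcases h with rfl | h | h
    exacts [le_rfl, (hs h).trans Set.subset_union_left, (ht h).trans Set.subset_union_right]
  | lk Y p s0 s1 t0 t1 h0 h1 h2 h3 =>
    simp only [Tm.sub, Finset.mem_insert, Finset.mem_union] at h
    rcases h with rfl | ((h | h) | h) | h
    · exact le_rfl
    · exact fun x hx => Or.inr (Or.inl (Or.inl (Or.inl (h0 h hx))))
    · exact fun x hx => Or.inr (Or.inl (Or.inl (Or.inr (h1 h hx))))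
    · exact fun x hx => Or.inr (Or.inl (Or.inr (h2 h hx)))
    · exact fun x hx => Or.inr (Or.inr (h3 h hx))

theorem Tm.supp_subset_of_mem_args {t u : Tm X} (h : u ∈ t.args) : u.supp ⊆ t.supp :=
  Tm.supp_subset_of_mem_sub (t.args_subset_sub h)

theorem Tm.supp_finite (t : Tm X) : t.supp.Finite := by
  induction t with
  | bot => exact Set.finite_empty
  | fl x k j => exact Set.finite_singleton _
  | dg j j' => exact Set.finite_empty
  | sup s t hs ht => exact hs.union ht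
  | inf s t hs ht => exact hs.union ht
  | lk Y p s0 s1 t0 t1 h0 h1 h2 h3 =>
    exact (List.finite_toSet Y).union (((h0.union h1).union h2).union h3)

theorem Tm.sizeOf_le_of_mem_sub {t u : Tm X} (h : u ∈ t.sub) : sizeOf u ≤ sizeOf t := by
  induction t with
  | bot => simp [Tm.sub] at h; rw [h]
  | fl x k j => simp [Tm.sub] at h; rw [h]
  | dg j j' => simp [Tm.sub] at h; rw [h]
  | sup s t hs ht =>
    simp only [Tm.sub, Finset.mem_insert, Finset.mem_union] at h
    rcases h with rfl | h | h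
    · exact le_rfl
    · have := hs h; simp; omega
    · have := ht h; simp; omega
  | inf s t hs ht =>
    simp only [Tm.sub, Finset.mem_insert, Finset.mem_union] at h
    rcases h with rfl | h | h
    · exact le_rfl
    · have := hs h; simp; omega
    · have := ht h; simp; omega
  | lk Y p s0 s1 t0 t1 h0 h1 h2 h3 =>
    simp only [Tm.sub, Finset.mem_insert, Finset.mem_union] at h
    rcases h with rfl | ((h | h) | h) | h
    · exact le_rfl
    · have := h0 h; simp; omega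
    · have := h1 h; simp; omega
    · have := h2 h; simp; omega
    · have := h3 h; simp; omega

theorem Tm.sizeOf_lt_of_mem_args {t u : Tm X} (h : u ∈ t.args) : sizeOf u < sizeOf t := by
  cases t <;> simp only [Tm.args, Finset.mem_union, Finset.notMem_empty] at h
  · rcases h with h | h <;> have := Tm.sizeOf_le_of_mem_sub h <;> simp <;> omega
  · rcases h with h | h <;> have := Tm.sizeOf_le_of_mem_sub h <;> simp <;> omega
  · rcases h with ((h | h) | h) | h <;> have := Tm.sizeOf_le_of_mem_sub h <;> simp <;> omega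

theorem Tm.notMem_args (t : Tm X) : t ∉ t.args := fun h =>
  lt_irrefl _ (Tm.sizeOf_lt_of_mem_args h)

/-- One passes from a closed set to a larger closed set by adding one term at a time. -/
theorem closed_chain {S0 S : Finset (Tm X)} (h0 : Closed S0) (hS : Closed S) (h : S0 ⊆ S)
    (Q : Finset (Tm X) → Prop) (hQ : Q S0)
    (step : ∀ S' s, Closed S' → S0 ⊆ S' → S' ⊆ S → s ∈ S → s ∉ S' → s.args ⊆ S' → Q S' →
      Q (insert s S')) : Q S := by
  suffices H : ∀ n, ∀ S', Closed S' → S0 ⊆ S' → S' ⊆ S → Q S' → (S \ S').card = n → Q S from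
    H _ S0 h0 le_rfl h hQ rfl
  intro n
  induction n with
  | zero =>
    intro S' _ _ h2 h3 h4
    rw [Finset.card_eq_zero, Finset.sdiff_eq_empty_iff_subset] at h4
    rwa [← Finset.Subset.antisymm h2 h4]
  | succ n ih =>
    intro S' h1 h1' h2 h3 h4
    obtain ⟨s, hs, hmin⟩ := Finset.exists_min_image (S \ S') (fun t => sizeOf t)
      (Finset.card_pos.1 (by omega))
    obtain ⟨hsS, hsS'⟩ := Finset.mem_sdiff.1 hs
    have hargs : s.args ⊆ S' := fun u hu => by
      by_contra hn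
      have := hmin u (Finset.mem_sdiff.2 ⟨hS.args_subset hsS hu, hn⟩)
      have := Tm.sizeOf_lt_of_mem_args hu
      omega
    refine ih (insert s S') (h1.insert fun u hu => hargs (Tm.kids_mem_args hu))
      (h1'.trans (Finset.subset_insert _ _)) (Finset.insert_subset hsS h2)
      (step S' s h1 h1' h2 hsS hsS' hargs h3) ?_
    rw [Finset.sdiff_insert, Finset.card_erase_of_mem hs, h4]; rfl

end Terms

section Str

variable {X E E' E'' : Type} [AddCommGroup E] [Module Kf E] [AddCommGroup E'] [Module Kf E']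
  [AddCommGroup E''] [Module Kf E'']

@[simp] theorem hat_apply (f : E →ₗ[Kf] E') (v : Amb X E) (j : J X) : hat X f v j = f (v j) := rfl

theorem hat_single (f : E →ₗ[Kf] E') (j : J X) (v : E) :
    hat X f (Finsupp.single j v) = Finsupp.single j (f v) := by
  simp [hat]

theorem hat_comp (g : E' →ₗ[Kf] E'') (f : E →ₗ[Kf] E') : hat X (g ∘ₗ f) = hat X g ∘ₗ hat X f :=
  LinearMap.ext fun _ => Finsupp.ext fun _ => rfl

theorem hat_hat (g : E' →ₗ[Kf] E'') (f : E →ₗ[Kf] E') (v : Amb X E) :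
    hat X g (hat X f v) = hat X (g ∘ₗ f) v := Finsupp.ext fun _ => rfl

theorem hat_add (f g : E →ₗ[Kf] E') : hat X (f + g) = hat X f + hat X g :=
  LinearMap.ext fun _ => Finsupp.ext fun _ => rfl

theorem hat_sub (f g : E →ₗ[Kf] E') : hat X (f - g) = hat X f - hat X g :=
  LinearMap.ext fun _ => Finsupp.ext fun _ => rfl

theorem hat_smul (r : Kf) (f : E →ₗ[Kf] E') : hat X (r • f) = r • hat X f :=
  LinearMap.ext fun _ => Finsupp.ext fun _ => rfl

theorem hat_zero : hat X (0 : E →ₗ[Kf] E') = 0 :=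
  LinearMap.ext fun _ => Finsupp.ext fun _ => rfl

theorem hat_id : hat X (LinearMap.id : E →ₗ[Kf] E) = LinearMap.id :=
  LinearMap.ext fun _ => Finsupp.ext fun _ => rfl

theorem hat_idem {e : E →ₗ[Kf] E} (he : e ∘ₗ e = e) : hat X e ∘ₗ hat X e = hat X e := by
  rw [← hat_comp, he]

theorem Act.comp (a : Act E) (α β : Alg) : a.φ α ∘ₗ a.φ β = a.φ (α * β) := (a.mul α β).symm

theorem Act.hat_comp (a : Act E) (α β : Alg) :
    hat X (a.φ α) ∘ₗ hat X (a.φ β) = hat X (a.φ (α * β)) := by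
  rw [← MF.hat_comp, a.comp]

theorem Act.hat_hat (a : Act E) (α β : Alg) (v : Amb X E) :
    hat X (a.φ α) (hat X (a.φ β) v) = hat X (a.φ (α * β)) v := by
  rw [MF.hat_hat, a.comp]

theorem Act.hat_add (a : Act E) (α β : Alg) :
    hat X (a.φ (α + β)) = hat X (a.φ α) + hat X (a.φ β) := by
  rw [map_add, MF.hat_add]

/-- A map respecting all atoms of a closed set respects all its terms. -/
theorem ev_hom {S : Finset (Tm X)} (hS : Closed S) {M : Str X E} {M' : Str X E'}
    {f : E →ₗ[Kf] E'} (h : ∀ t ∈ S, AtomHom M M' f t) {t : Tm X} (ht : t ∈ S) :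
    RLe (hat X f) (M.ev t) (M'.ev t) := by
  induction t with
  | bot => exact rle_bot _ _
  | fl x k j =>
    rintro _ ⟨v, hv, rfl⟩
    exact ⟨f v, h _ ht k v hv, (hat_single f j v).symm⟩
  | dg j j' =>
    rintro _ ⟨v, rfl⟩
    exact ⟨f v, by simp [hat_single]⟩
  | sup s t hs ht' =>
    exact (hs (hS _ ht _ (by simp [Tm.kids]))).sup (ht' (hS _ ht _ (by simp [Tm.kids])))
  | inf s t hs ht' =>
    exact (hs (hS _ ht _ (by simp [Tm.kids]))).inf (ht' (hS _ ht _ (by simp [Tm.kids])))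
  | lk Y p s0 s1 t0 t1 => exact h _ ht

theorem ev_hom_all {M : Str X E} {M' : Str X E'} {f : E →ₗ[Kf] E'} (h : ∀ t, AtomHom M M' f t)
    (t : Tm X) : RLe (hat X f) (M.ev t) (M'.ev t) :=
  ev_hom (closed_sub t) (fun u _ => h u) t.mem_sub_self

theorem AtomHom.comp {M : Str X E} {M' : Str X E'} {M'' : Str X E''} {f : E →ₗ[Kf] E'}
    {g : E' →ₗ[Kf] E''} {t : Tm X} (hg : AtomHom M' M'' g t) (hf : AtomHom M M' f t) :
    AtomHom M M'' (g ∘ₗ f) t := by
  cases t <;> try trivial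
  · exact fun k => RLe.comp (hg k) (hf k)
  · simp only [AtomHom, hat_comp] at *; exact RLe.comp hg hf

theorem AtomHom.add {M : Str X E} {M' : Str X E'} {f g : E →ₗ[Kf] E'} {t : Tm X}
    (hf : AtomHom M M' f t) (hg : AtomHom M M' g t) : AtomHom M M' (f + g) t := by
  cases t <;> try trivial
  · exact fun k => RLe.add (hf k) (hg k)
  · simp only [AtomHom, hat_add] at *; exact RLe.add hf hg

theorem AtomHom.smul {M : Str X E} {M' : Str X E'} {f : E →ₗ[Kf] E'} {t : Tm X}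
    (hf : AtomHom M M' f t) (r : Kf) : AtomHom M M' (r • f) t := by
  cases t <;> try trivial
  · exact fun k => RLe.smul (hf k) r
  · simp only [AtomHom, hat_smul] at *; exact RLe.smul hf r

theorem atomHom_zero (M : Str X E) (M' : Str X E') (t : Tm X) : AtomHom M M' 0 t := by
  cases t <;> try trivial
  · exact fun k => rle_zero _ _
  · simp only [AtomHom, hat_zero]; exact rle_zero _ _

theorem atomHom_id (M : Str X E) (t : Tm X) : AtomHom M M LinearMap.id t := by
  cases t <;> try trivial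
  · exact fun k v hv => hv
  · simp only [AtomHom, hat_id]; exact fun v hv => hv

/-- Validity passes to retracts. -/
theorem rle_of_retract {M : Str X E} {M' : Str X E'} {f : E →ₗ[Kf] E'} {g : E' →ₗ[Kf] E}
    {e : E →ₗ[Kf] E} {e' : E' →ₗ[Kf] E'} (he : g ∘ₗ e' ∘ₗ f = e) {s t : Tm X}
    (hf : RLe (hat X f) (M.ev s) (M'.ev s)) (hg : RLe (hat X g) (M'.ev t) (M.ev t))
    (h : RLe (hat X e') (M'.ev s) (M'.ev t)) : RLe (hat X e) (M.ev s) (M.ev t) := by
  rw [← he, hat_comp, hat_comp]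
  exact hg.comp (h.comp hf)

theorem atomHom_inl (M : Str X E) (M' : Str X E') (t : Tm X) :
    AtomHom M (M.prod M') (LinearMap.inl Kf E E') t := by
  cases t <;> try trivial
  · exact fun k v hv => ⟨hv, Submodule.zero_mem _⟩
  · intro v hv
    refine ⟨?_, ?_⟩
    · simpa [hat_hat, hat_id] using hv
    · simp [hat_hat, hat_zero]

theorem atomHom_inr (M : Str X E) (M' : Str X E') (t : Tm X) :
    AtomHom M' (M.prod M') (LinearMap.inr Kf E E') t := by
  cases t <;> try trivial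
  · exact fun k v hv => ⟨Submodule.zero_mem _, hv⟩
  · intro v hv
    refine ⟨?_, ?_⟩
    · simp [hat_hat, hat_zero]
    · simpa [hat_hat, hat_id] using hv

theorem atomHom_fst (M : Str X E) (M' : Str X E') (t : Tm X) :
    AtomHom (M.prod M') M (LinearMap.fst Kf E E') t := by
  cases t <;> try trivial
  · exact fun k v hv => hv.1
  · exact fun v hv => hv.1

theorem atomHom_snd (M : Str X E) (M' : Str X E') (t : Tm X) :
    AtomHom (M.prod M') M' (LinearMap.snd Kf E E') t := by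
  cases t <;> try trivial
  · exact fun k v hv => hv.2
  · exact fun v hv => hv.2

theorem atomHom_lapply (M : Str X E) (I : Type) (l : I) (t : Tm X) :
    AtomHom (M.pow I) M (Finsupp.lapply l) t := by
  cases t <;> try trivial
  · exact fun k v hv => (Submodule.mem_iInf _).1 hv l
  · exact fun v hv => (Submodule.mem_iInf _).1 hv l

theorem lapply_lsingle {I : Type} (l l' : I) :
    (Finsupp.lapply l' ∘ₗ Finsupp.lsingle l : E →ₗ[Kf] E) = if l = l' then LinearMap.id else 0 := by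
  ext v
  by_cases h : l = l' <;> simp [h]

theorem atomHom_lsingle (M : Str X E) (I : Type) (l : I) (t : Tm X) :
    AtomHom M (M.pow I) (Finsupp.lsingle l) t := by
  cases t <;> try trivial
  · intro k v hv
    refine (Submodule.mem_iInf _).2 fun l' => ?_
    by_cases h : l = l' <;> simp [h, hv]
  · intro v hv
    refine (Submodule.mem_iInf _).2 fun l' => ?_
    rw [Submodule.mem_comap, hat_hat, lapply_lsingle]
    by_cases h : l = l' <;> simp [h, hv, hat_id, hat_zero]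

/-- Two structures on the same space agree on the atoms of `S`. -/
def Agree (S : Finset (Tm X)) (M M' : Str X E) : Prop :=
  (∀ x k j, Tm.fl x k j ∈ S → M.z x = M'.z x) ∧ ∀ t ∈ S, M.lk t = M'.lk t

theorem Agree.ev {S : Finset (Tm X)} (hS : Closed S) {M M' : Str X E} (h : Agree S M M')
    {t : Tm X} (ht : t ∈ S) : M.ev t = M'.ev t := by
  induction t with
  | bot => rfl
  | fl x k j => simp only [Str.ev, h.1 x k j ht]
  | dg j j' => rfl
  | sup s t hs ht' =>
    simp only [Str.ev, hs (hS _ ht _ (by simp [Tm.kids])), ht' (hS _ ht _ (by simp [Tm.kids]))]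
  | inf s t hs ht' =>
    simp only [Str.ev, hs (hS _ ht _ (by simp [Tm.kids])), ht' (hS _ ht _ (by simp [Tm.kids]))]
  | lk Y p s0 s1 t0 t1 => exact h.2 _ ht

theorem AtomHom.congr {S : Finset (Tm X)} {M N : Str X E} {M' N' : Str X E'} (h : Agree S M N)
    (h' : Agree S M' N') {f : E →ₗ[Kf] E'} {t : Tm X} (ht : t ∈ S) (hf : AtomHom M M' f t) :
    AtomHom N N' f t := by
  cases t <;> try trivial
  · simpa only [AtomHom, ← h.1 _ _ _ ht, ← h'.1 _ _ _ ht] using hf
  · simpa only [AtomHom, ← h.2 _ ht, ← h'.2 _ ht] using hf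

theorem Agree.refl (S : Finset (Tm X)) (M : Str X E) : Agree S M M :=
  ⟨fun _ _ _ _ => rfl, fun _ _ => rfl⟩

theorem LinkAx.congr {S : Finset (Tm X)} (hS : Closed S) {M N : Str X E} (h : Agree S M N)
    {e : E →ₗ[Kf] E} {t : Tm X} (ht : t ∈ S) (hf : LinkAx M e t) : LinkAx N e t := by
  cases t <;> try trivial
  simp only [LinkAx] at hf ⊢
  rwa [← h.2 _ ht, ← h.ev hS (hS _ ht _ (by simp [Tm.kids])),
    ← h.ev hS (hS _ ht _ (by simp [Tm.kids])), ← h.ev hS (hS _ ht _ (by simp [Tm.kids])),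
    ← h.ev hS (hS _ ht _ (by simp [Tm.kids]))]

theorem TrivAx.congr {S : Finset (Tm X)} (hS : Closed S) {M N : Str X E} (h : Agree S M N)
    {e : E →ₗ[Kf] E} {t : Tm X} (ht : t ∈ S) (hf : TrivAx M e t) : TrivAx N e t := by
  cases t <;> try trivial
  simp only [TrivAx] at hf ⊢
  rwa [← h.2 _ ht, ← h.ev hS (hS _ ht _ (by simp [Tm.kids])),
    ← h.ev hS (hS _ ht _ (by simp [Tm.kids]))]

theorem PlainAx.congr {S : Finset (Tm X)} (hS : Closed S) {M N : Str X E} (h : Agree S M N)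
    {A : Tm X → Prop} {φ : X → Bool} {e : E →ₗ[Kf] E} {t : Tm X} (ht : t ∈ S)
    (hf : PlainAx A φ M e t) : PlainAx A φ N e t := by
  cases t
  case fl x k j => simpa only [PlainAx, ← h.1 _ _ _ ht] using hf
  all_goals exact ⟨fun hh => (hf.1 hh).congr hS h ht, fun hh => (hf.2 hh).congr hS h ht⟩

theorem Mem.congr {S : Finset (Tm X)} (hS : Closed S) {M N : Str X E} (h : Agree S M N)
    {A : Tm X → Prop} {q : X → N5} {a : Act E} (hM : Mem A q S a M) : Mem A q S a N := by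
  intro t ht
  obtain ⟨h1, h2, h3, h4⟩ := hM t ht
  exact ⟨fun π hπ => ⟨(h1 π hπ).1.congr h h ht, (h1 π hπ).2.congr hS h ht⟩,
    fun hh α => (h2 hh α).congr h h ht, h3.congr h h ht,
    fun a1 a2 a3 => (h4 a1 a2 a3).congr hS h ht⟩

theorem agree_setLk {S : Finset (Tm X)} (M : Str X E) {s : Tm X} (hs : s ∉ S)
    (R : Submodule Kf (Amb X E)) : Agree S M (M.setLk s R) :=
  ⟨fun _ _ _ _ => rfl, fun t ht => by
    have : t ≠ s := fun h => hs (h ▸ ht)
    simp [Str.setLk, Function.update_of_ne this]⟩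

theorem setLk_self (M : Str X E) (s : Tm X) (R : Submodule Kf (Amb X E)) :
    (M.setLk s R).lk s = R := by
  simp [Str.setLk]

theorem agree_setZ {S : Finset (Tm X)} (M : Str X E) {x : X} (hx : ∀ k j, Tm.fl x k j ∉ S)
    (z : Fin 5 → Submodule Kf E) (h : Monotone z) (h0 : z 0 = ⊥) (h4 : z 4 = ⊤) :
    Agree S M (M.setZ x z h h0 h4) :=
  ⟨fun y k j hy => by
    have : y ≠ x := fun h => hx k j (h ▸ hy)
    simp [Str.setZ, Function.update_of_ne this], fun _ _ => rfl⟩

theorem setZ_self (M : Str X E) (x : X) (z : Fin 5 → Submodule Kf E) (h : Monotone z)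
    (h0 : z 0 = ⊥) (h4 : z 4 = ⊤) : (M.setZ x z h h0 h4).z x = z := by
  simp [Str.setZ]

theorem att_congr {q q' : X → N5} {t : Tm X} (h : ∀ x ∈ t.supp, q x = q' x) :
    Att q t ↔ Att q' t := by
  cases t <;> try rfl
  exact forall₂_congr fun x hx => by rw [h x hx]

theorem PlainAx.congr_col {A : Tm X → Prop} {φ ψ : X → Bool} {M : Str X E} {e : E →ₗ[Kf] E}
    {t : Tm X} (h : ∀ x ∈ t.supp, φ x = ψ x) (hf : PlainAx A φ M e t) : PlainAx A ψ M e t := by
  have h' : Att (fun x => ofB (φ x)) t ↔ Att (fun x => ofB (ψ x)) t :=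
    att_congr fun x hx => by rw [h x hx]
  cases t
  case fl x k j => simpa only [PlainAx, ← h x rfl] using hf
  all_goals simpa only [PlainAx, ← h'] using hf

theorem PMem.congr_col {A : Tm X → Prop} {φ ψ : X → Bool} {S : Finset (Tm X)} {M : Str X E}
    {e : E →ₗ[Kf] E} (h : ∀ t ∈ S, ∀ x ∈ t.supp, φ x = ψ x) (hM : PMem A φ S M e) :
    PMem A ψ S M e :=
  ⟨hM.1, fun t ht => ⟨(hM.2 t ht).1, (hM.2 t ht).2.congr_col (h t ht)⟩⟩

theorem onto_congr {q q' : X → N5} {Y : Set X} (h : ∀ x ∈ Y, q x = q' x) (hq : Onto q Y) :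
    Onto q' Y := by
  obtain ⟨⟨x, hx, h1⟩, ⟨y, hy, h2⟩, ⟨z, hz, h3⟩⟩ := hq
  exact ⟨⟨x, hx, h x hx ▸ h1⟩, ⟨y, hy, h y hy ▸ h2⟩, ⟨z, hz, h z hz ▸ h3⟩⟩

theorem Mem.congr_lab {A : Tm X → Prop} {q q' : X → N5} {S : Finset (Tm X)} {a : Act E}
    {M : Str X E} (h : ∀ t ∈ S, ∀ x ∈ t.supp, q x = q' x) (hM : Mem A q S a M) :
    Mem A q' S a M := by
  intro t ht
  obtain ⟨h1, h2, h3, h4⟩ := hM t ht
  refine ⟨fun π hπ => ?_, fun hh => h2 fun x hx => h t ht x hx ▸ hh x hx, h3, fun a1 a2 a3 =>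
    h4 (onto_congr (fun x hx => (h t ht x hx).symm) a1) a2 ((att_congr (h t ht)).2 a3)⟩
  obtain ⟨b1, b2⟩ := h1 π fun x hx => h t ht x hx ▸ hπ x hx
  exact ⟨b1, b2.congr_col fun x hx => by rw [h t ht x hx]⟩

theorem PMem.mono {A : Tm X → Prop} {φ : X → Bool} {S S' : Finset (Tm X)} {M : Str X E}
    {e : E →ₗ[Kf] E} (hM : PMem A φ S M e) (h : S' ⊆ S) : PMem A φ S' M e :=
  ⟨hM.1, fun t ht => hM.2 t (h ht)⟩

theorem Mem.mono {A : Tm X → Prop} {q : X → N5} {S S' : Finset (Tm X)} {a : Act E} {M : Str X E}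
    (hM : Mem A q S a M) (h : S' ⊆ S) : Mem A q S' a M := fun t ht => hM t (h ht)

/-- The pieces of a decorated member are plain members. -/
theorem Mem.piece {A : Tm X → Prop} {q : X → N5} {S : Finset (Tm X)} {a : Act E} {M : Str X E}
    (hM : Mem A q S a M) (π : Pc) (h : ∀ t ∈ S, ∀ x ∈ t.supp, q x ≠ π.out) :
    PMem A (fun x => π.col (q x)) S M (a.φ π.idem) :=
  ⟨by rw [a.comp, π.idem_mul_self], fun t ht => (hM t ht).1 π (h t ht)⟩

theorem PMem.ev_stab {A : Tm X → Prop} {φ : X → Bool} {S : Finset (Tm X)} (hS : Closed S)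
    {M : Str X E} {e : E →ₗ[Kf] E} (hM : PMem A φ S M e) {t : Tm X} (ht : t ∈ S) :
    RLe (hat X e) (M.ev t) (M.ev t) :=
  ev_hom hS (fun u hu => (hM.2 u hu).1) ht

theorem Mem.ev_stab_one {A : Tm X → Prop} {q : X → N5} {S : Finset (Tm X)} (hS : Closed S)
    {a : Act E} {M : Str X E} (hM : Mem A q S a M) {t : Tm X} (ht : t ∈ S) :
    RLe (hat X (a.φ 1)) (M.ev t) (M.ev t) :=
  ev_hom hS (fun u hu => (hM u hu).2.2.1) ht

/-- Passing to a smaller idempotent that respects all atoms. -/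
theorem PMem.below {A : Tm X → Prop} {φ : X → Bool} {S : Finset (Tm X)} (hS : Closed S)
    {M : Str X E} {e e' : E →ₗ[Kf] E} (hM : PMem A φ S M e) (he : e' ∘ₗ e = e')
    (he' : e' ∘ₗ e' = e') (h : ∀ t ∈ S, AtomHom M M e' t) : PMem A φ S M e' := by
  refine ⟨he', fun t ht => ⟨h t ht, ?_⟩⟩
  have h2 := (hM.2 t ht).2
  have hh : hat X e' ∘ₗ hat X e = hat X e' := by rw [← hat_comp, he]
  cases t
  case fl x k j => exact FlagAx.below h2 he (h _ ht)
  case lk Y p s0 s1 t0 t1 =>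
    have k : ∀ u ∈ (Tm.lk Y p s0 s1 t0 t1).kids, RLe (hat X e') (M.ev u) (M.ev u) :=
      fun u hu => ev_hom hS h (hS _ ht u hu)
    exact ⟨fun c => LinkS.below (h2.1 c) hh (k _ (by simp [Tm.kids])) (k _ (by simp [Tm.kids]))
        (k _ (by simp [Tm.kids])) (h _ ht),
      fun c => TrivS.below (h2.2 c) hh (k _ (by simp [Tm.kids])) (k _ (by simp [Tm.kids]))
        (h _ ht)⟩
  all_goals exact ⟨fun _ => trivial, fun _ => trivial⟩

/-- Smoothness: for subspaces stable under the whole algebra three pieces suffice. -/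
theorem Act.rle_one (a : Act E) {A B : Submodule Kf (Amb X E)}
    (hA : ∀ α, RLe (hat X (a.φ α)) A A) (hB : ∀ α, RLe (hat X (a.φ α)) B B)
    (h01 : RLe (hat X (a.φ e01)) A B) (h1 : RLe (hat X (a.φ n1)) A B)
    (h2 : RLe (hat X (a.φ n2)) A B) : RLe (hat X (a.φ 1)) A B := by
  intro v hv
  obtain ⟨S, hS⟩ := ((Filter.eventually_all_finset v.support).2
    fun j _ => a.smooth (v j)).exists
  have : hat X (a.φ 1) v = hat X (a.φ n1) v + hat X (a.φ n2) v +
      ∑ l ∈ S, hat X (a.φ (up l)) (hat X (a.φ e01) (hat X (a.φ (dn l)) v)) := by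
    ext j
    by_cases hj : j ∈ v.support
    · rw [hat_apply, ← hS j hj]
      simp [apx, Finsupp.finsetSum_apply, a.mul]
    · simp [Finsupp.notMem_support_iff.1 hj, Finsupp.finsetSum_apply]
  rw [this]
  exact B.add_mem (B.add_mem (h1 v hv) (h2 v hv))
    (B.sum_mem fun l _ => hB _ _ (h01 _ (hA _ _ hv)))

end Str

end Pool.Agent.P.MP_4a7a83_al.MF
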