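import Pool.Agent.P.MP_4a7a83_al.F.Basic

/-!
Room for a link can be made by adding copies of a witness.
-/

namespace Pool.Agent.P.MP_4a7a83_al.MF

set_option linter.unusedSectionVars false
set_option maxSynthPendingDepth 4

variable [Fld]

open Classical N5

open Cardinal in
theorem big_card (E E' : Type) [AddCommGroup E] [AddCommGroup E'] :
    #(Bool →₀ (E × ((ℕ × E × E') →₀ E'))) ≤ #(ℕ × E × E') := by
  have hI : ℵ₀ ≤ #(ℕ × E × E') := aleph0_le_mk _
  have h1 : #E ≤ #(ℕ × E × E') :=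
    mk_le_of_injective (f := fun x => (0, x, 0)) fun x y h => by simpa using h
  have h2 : #E' ≤ #(ℕ × E × E') :=
    mk_le_of_injective (f := fun x => (0, 0, x)) fun x y h => by simpa using h
  have h3 : #((ℕ × E × E') →₀ E') ≤ #(ℕ × E × E') := by
    rcases subsingleton_or_nontrivial E' with h | h
    · exact (le_one_iff_subsingleton.2 inferInstance).trans (one_le_aleph0.trans hI)
    · rw [mk_finsupp_of_infinite]
      exact max_le le_rfl h2
  have h4 : #(E × ((ℕ × E × E') →₀ E')) ≤ #(ℕ × E × E') := by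
    rw [mk_prod, lift_id, lift_id]
    exact (mul_le_mul' h1 h3).trans (mul_eq_self hI).le
  rw [mk_finsupp_of_fintype, Fintype.card_bool, pow_two]
  exact (mul_le_mul' h4 h4).trans (mul_eq_self hI).le

theorem exists_inj_finsupp (V I : Type) [AddCommGroup V] [Module Kf V]
    (h : Cardinal.mk V ≤ Cardinal.mk I) : ∃ ι : V →ₗ[Kf] (I →₀ Kf), Function.Injective ι := by
  obtain ⟨e⟩ := (Cardinal.le_def _ _).1 h
  let b := Module.Basis.ofVectorSpace Kf V
  refine ⟨Finsupp.lmapDomain Kf Kf (fun i => e i.1) ∘ₗ b.repr.toLinearMap, ?_⟩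
  exact (Finsupp.mapDomain_injective fun i j hij => Subtype.ext (e.injective hij)).comp
    b.repr.injective

theorem exists_big (X E E' : Type) [AddCommGroup E] [Module Kf E] [AddCommGroup E'] [Module Kf E'] :
    ∃ I : Type, Nonempty I ∧ ∀ (a : Act E) (M : Str X E) (a' : Act E') (M' : Str X E') (α : Alg)
      (s0 s1 : Tm X), α * α = α → RLe (hat X (a'.φ α)) (M'.ev s1) (M'.ev s1) →
      ¬ RLe (hat X (a'.φ α)) (M'.ev s1) (M'.ev s0) →
      Big (hat X ((a.prod (a'.pow I)).φ α)) ((M.prod (M'.pow I)).ev s0)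
        ((M.prod (M'.pow I)).ev s1) := by
  refine ⟨ℕ × E × E', inferInstance, fun a M a' M' α s0 s1 hα h1 h0 => ?_⟩
  obtain ⟨ι, hι⟩ := exists_inj_finsupp (Amb X (E × ((ℕ × E × E') →₀ E'))) (ℕ × E × E')
    (big_card E E')
  generalize (ℕ × E × E') = I at ι hι ⊢
  simp only [RLe, not_forall] at h0
  obtain ⟨v, hv, hw0⟩ := h0
  have hw1 := h1 v hv
  have hw2 : hat X (a'.φ α) (hat X (a'.φ α) v) = hat X (a'.φ α) v := by rw [a'.hat_hat, hα]
  generalize hat X (a'.φ α) v = w at hw0 hw1 hw2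
  let u : I → Amb X (E × (I →₀ E')) := fun l =>
    hat X (LinearMap.inr Kf E (I →₀ E') ∘ₗ Finsupp.lsingle l) w
  have hu1 : ∀ l, u l ∈ (M.prod (M'.pow I)).ev s1 := fun l =>
    ev_hom_all (fun t => (atomHom_inr M (M'.pow I) t).comp (atomHom_lsingle M' I l t)) s1 w hw1
  have hu2 : ∀ l, hat X ((a.prod (a'.pow I)).φ α) (u l) = u l := by
    intro l
    have e : (a.prod (a'.pow I)).φ α ∘ₗ (LinearMap.inr Kf E (I →₀ E') ∘ₗ Finsupp.lsingle l) =
        (LinearMap.inr Kf E (I →₀ E') ∘ₗ Finsupp.lsingle l) ∘ₗ a'.φ α := by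
      ext x <;> simp [Act.prod, Act.pow]
    simp only [u]
    rw [hat_hat, e, ← hat_hat, hw2]
  have hu3 : ∀ l l', hat X (Finsupp.lapply l' ∘ₗ LinearMap.snd Kf E (I →₀ E')) (u l) =
      if l = l' then w else 0 := by
    intro l l'
    simp only [u]
    rw [hat_hat]
    have e : (Finsupp.lapply l' ∘ₗ LinearMap.snd Kf E (I →₀ E')) ∘ₗ
        (LinearMap.inr Kf E (I →₀ E') ∘ₗ Finsupp.lsingle l) =
        (Finsupp.lapply l' ∘ₗ Finsupp.lsingle l : E' →ₗ[Kf] E') := by
      ext x; simp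
    rw [e, lapply_lsingle]
    split_ifs
    · rw [hat_id]; rfl
    · rw [hat_zero]; rfl
  refine ⟨Finsupp.linearCombination Kf u ∘ₗ ι, fun x => ⟨?_, ?_⟩, fun x hx => ?_⟩
  · rw [LinearMap.comp_apply, Finsupp.linearCombination_apply]
    exact Submodule.sum_mem _ fun l _ => Submodule.smul_mem _ _ (hu1 l)
  · rw [LinearMap.comp_apply, Finsupp.linearCombination_apply, Finsupp.sum, map_sum]
    exact Finset.sum_congr rfl fun l _ => by rw [map_smul, hu2]
  · apply hι
    rw [map_zero]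
    ext l
    have h3 := ev_hom_all (fun t => (atomHom_lapply M' I l t).comp (atomHom_snd M (M'.pow I) t))
      s0 _ hx
    rw [LinearMap.comp_apply, Finsupp.linearCombination_apply, Finsupp.sum, map_sum] at h3
    simp only [map_smul, hu3, smul_ite, smul_zero, Finset.sum_ite_eq'] at h3
    by_contra hne
    rw [if_pos (Finsupp.mem_support_iff.2 hne)] at h3
    exact hw0 ((Submodule.smul_mem_iff _ hne).1 h3)

end Pool.Agent.P.MP_4a7a83_al.MF
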