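import Pool.Agent.P.MP_4a7a83_al.F.Gad

/-!
Terms, structures, and the classes of structures attached to labellings `q : X → N5`.
-/

namespace Pool.Agent.P.MP_4a7a83_al.MF

set_option linter.unusedSectionVars false
set_option maxSynthPendingDepth 4

variable [Fld]

open Classical N5

/-- The two coordinates. -/
abbrev J (_X : Type) : Type := Bool

/-- The ambient space of a structure on `E`. -/
abbrev Amb (X E : Type) [AddCommGroup E] : Type := J X →₀ E

/-- Terms. The atoms are the flags `fl` and the links `lk`. -/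
inductive Tm (X : Type) : Type
  | bot : Tm X
  | fl (x : X) (k : Fin 5) (j : J X) : Tm X
  | dg (r s : Kf) : Tm X
  | sup (s t : Tm X) : Tm X
  | inf (s t : Tm X) : Tm X
  | lk (Y : List X) (p : X → N5) (s0 s1 t0 t1 : Tm X) : Tm X

namespace Tm

variable {X : Type}

def supp : Tm X → Set X
  | bot => ∅
  | fl x _ _ => {x}
  | dg _ _ => ∅
  | sup s t => s.supp ∪ t.supp
  | inf s t => s.supp ∪ t.supp
  | lk Y _ s0 s1 t0 t1 => {y | y ∈ Y} ∪ (s0.supp ∪ s1.supp ∪ t0.supp ∪ t1.supp)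

def kids : Tm X → List (Tm X)
  | sup s t => [s, t]
  | inf s t => [s, t]
  | lk _ _ s0 s1 t0 t1 => [s0, s1, t0, t1]
  | _ => []

/-- All subterms. -/
noncomputable def sub : Tm X → Finset (Tm X)
  | bot => {bot}
  | fl x k j => {fl x k j}
  | dg j j' => {dg j j'}
  | sup s t => insert (sup s t) (s.sub ∪ t.sub)
  | inf s t => insert (inf s t) (s.sub ∪ t.sub)
  | lk Y p s0 s1 t0 t1 => insert (lk Y p s0 s1 t0 t1) (s0.sub ∪ s1.sub ∪ t0.sub ∪ t1.sub)

/-- All proper subterms. -/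
noncomputable def args : Tm X → Finset (Tm X)
  | sup s t => s.sub ∪ t.sub
  | inf s t => s.sub ∪ t.sub
  | lk _ _ s0 s1 t0 t1 => s0.sub ∪ s1.sub ∪ t0.sub ∪ t1.sub
  | _ => ∅

end Tm

/-- Finite sets of terms closed under subterms. -/
def Closed {X : Type} (S : Finset (Tm X)) : Prop := ∀ t ∈ S, ∀ u ∈ t.kids, u ∈ S

/-- A structure: a four-step flag for every generator and a subspace for every link. -/
structure Str (X E : Type) [AddCommGroup E] [Module Kf E] where
  z : X → Fin 5 → Submodule Kf E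
  mono : ∀ x, Monotone (z x)
  z0 : ∀ x, z x 0 = ⊥
  z4 : ∀ x, z x 4 = ⊤
  lk : Tm X → Submodule Kf (Amb X E)

/-- `f` maps `A` into `B`. -/
def RLe {V W : Type} [AddCommGroup V] [Module Kf V] [AddCommGroup W] [Module Kf W]
    (f : V →ₗ[Kf] W) (A : Submodule Kf V) (B : Submodule Kf W) : Prop := ∀ v ∈ A, f v ∈ B

section

variable {V : Type} [AddCommGroup V] [Module Kf V]

/-- On the part cut out by `e`, `ρ` is the graph of an injection `τ1 / τ0 → σ1 / σ0`. -/
def LinkS (e : V →ₗ[Kf] V) (σ0 σ1 τ0 τ1 ρ : Submodule Kf V) : Prop :=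
  RLe e (σ0 ⊔ τ0) ρ ∧ RLe e ρ (σ1 ⊔ τ1) ∧ RLe e τ1 (ρ ⊔ σ1) ∧ RLe e (ρ ⊓ τ1) τ0

/-- On the part cut out by `e`, `ρ` is trivial. -/
def TrivS (e : V →ₗ[Kf] V) (σ0 τ0 ρ : Submodule Kf V) : Prop :=
  RLe e (σ0 ⊔ τ0) ρ ∧ RLe e ρ (σ0 ⊔ τ0)

/-- On the part cut out by `e`, the flag has colour `b`. -/
def FlagAx : Bool → (Fin 5 → Submodule Kf V) → (V →ₗ[Kf] V) → Prop
  | true, z, e => RLe e (z 2) (z 1) ∧ RLe e (z 4) (z 3)
  | false, z, e => RLe e (z 1) (z 0) ∧ RLe e (z 3) (z 2)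

/-- The whole space embeds into the `e`-part of `σ1 / σ0`. -/
def Big (e : V →ₗ[Kf] V) (σ0 σ1 : Submodule Kf V) : Prop :=
  ∃ h : V →ₗ[Kf] V, (∀ v, h v ∈ σ1 ∧ e (h v) = h v) ∧ ∀ v, h v ∈ σ0 → v = 0

end

section

variable {X E E' : Type} [AddCommGroup E] [Module Kf E] [AddCommGroup E'] [Module Kf E']

/-- A linear map applied in every coordinate. -/
noncomputable def hat (X : Type) (f : E →ₗ[Kf] E') : Amb X E →ₗ[Kf] Amb X E' :=
  Finsupp.mapRange.linearMap f

/-- The value of a term. -/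
noncomputable def Str.ev (M : Str X E) : Tm X → Submodule Kf (Amb X E)
  | .bot => ⊥
  | .fl x k j => (M.z x k).map (Finsupp.lsingle j)
  | .dg r s => LinearMap.range
      (r • Finsupp.lsingle false + s • Finsupp.lsingle true : E →ₗ[Kf] Amb X E)
  | .sup s t => M.ev s ⊔ M.ev t
  | .inf s t => M.ev s ⊓ M.ev t
  | .lk Y p s0 s1 t0 t1 => M.lk (.lk Y p s0 s1 t0 t1)

/-- `f` respects the atom `t`. -/
def AtomHom (M : Str X E) (M' : Str X E') (f : E →ₗ[Kf] E') : Tm X → Prop
  | .fl x _ _ => ∀ k, RLe f (M.z x k) (M'.z x k)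
  | .lk Y p s0 s1 t0 t1 => RLe (hat X f) (M.lk (.lk Y p s0 s1 t0 t1)) (M'.lk (.lk Y p s0 s1 t0 t1))
  | _ => True

/-- The link `t` is attached to the labelling `q`. -/
def Att (q : X → N5) : Tm X → Prop
  | .lk Y p s0 s1 t0 t1 => ∀ x ∈ (Tm.lk Y p s0 s1 t0 t1).supp, p x = q x
  | _ => False

/-- The link axiom of `t` on the part cut out by `e`. -/
def LinkAx (M : Str X E) (e : E →ₗ[Kf] E) : Tm X → Prop
  | .lk Y p s0 s1 t0 t1 => LinkS (hat X e) (M.ev s0) (M.ev s1) (M.ev t0) (M.ev t1)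
      (M.lk (.lk Y p s0 s1 t0 t1))
  | _ => True

/-- The link `t` is trivial on the part cut out by `e`. -/
def TrivAx (M : Str X E) (e : E →ₗ[Kf] E) : Tm X → Prop
  | .lk Y p s0 s1 t0 t1 => TrivS (hat X e) (M.ev s0) (M.ev t0) (M.lk (.lk Y p s0 s1 t0 t1))
  | _ => True

/-- The axiom of the atom `t` at the two-valued point `φ`, on the part cut out by `e`;
`A` is the set of active links. -/
def PlainAx (A : Tm X → Prop) (φ : X → Bool) (M : Str X E) (e : E →ₗ[Kf] E) : Tm X → Prop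
  | .fl x _ _ => FlagAx (φ x) (M.z x) e
  | t => (A t ∧ Att (fun x => ofB (φ x)) t → LinkAx M e t) ∧
      (¬ (A t ∧ Att (fun x => ofB (φ x)) t) → TrivAx M e t)

/-- Plain members at the two-valued point `φ`. -/
def PMem (A : Tm X → Prop) (φ : X → Bool) (S : Finset (Tm X)) (M : Str X E)
    (e : E →ₗ[Kf] E) : Prop :=
  e ∘ₗ e = e ∧ ∀ t ∈ S, AtomHom M M e t ∧ PlainAx A φ M e t

/-- The axiom of the atom `t` at the labelling `q` in a decorated structure. -/
def Ax (A : Tm X → Prop) (q : X → N5) (a : Act E) (M : Str X E) (t : Tm X) : Prop :=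
  (∀ π : Pc, (∀ x ∈ t.supp, q x ≠ π.out) →
    AtomHom M M (a.φ π.idem) t ∧ PlainAx A (fun x => π.col (q x)) M (a.φ π.idem) t) ∧
  ((∀ x ∈ t.supp, q x = o ∨ q x = i) → ∀ α, AtomHom M M (a.φ α) t) ∧
  AtomHom M M (a.φ 1) t ∧
  (Onto q t.supp → A t → Att q t → LinkAx M (a.φ 1) t)

/-- Decorated members at the labelling `q`. -/
def Mem (A : Tm X → Prop) (q : X → N5) (S : Finset (Tm X)) (a : Act E) (M : Str X E) : Prop :=
  ∀ t ∈ S, Ax A q a M t

noncomputable def Str.setLk (M : Str X E) (s : Tm X) (R : Submodule Kf (Amb X E)) : Str X E :=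
  { M with lk := Function.update M.lk s R }

noncomputable def Str.setZ (M : Str X E) (x : X) (z : Fin 5 → Submodule Kf E) (h : Monotone z)
    (h0 : z 0 = ⊥) (h4 : z 4 = ⊤) : Str X E where
  z := Function.update M.z x z
  mono y := by
    by_cases hy : y = x
    · subst hy; simpa using h
    · simpa [Function.update_of_ne hy] using M.mono y
  z0 y := by
    by_cases hy : y = x
    · subst hy; simpa using h0
    · simpa [Function.update_of_ne hy] using M.z0 y
  z4 y := by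
    by_cases hy : y = x
    · subst hy; simpa using h4
    · simpa [Function.update_of_ne hy] using M.z4 y
  lk := M.lk

/-- Product of two structures. -/
noncomputable def Str.prod (M : Str X E) (M' : Str X E') : Str X (E × E') where
  z x k := (M.z x k).prod (M'.z x k)
  mono x _ _ h := Submodule.prod_mono (M.mono x h) (M'.mono x h)
  z0 x := by simp [M.z0, M'.z0]
  z4 x := by simp [M.z4, M'.z4]
  lk t := (M.lk t).comap (hat X (LinearMap.fst Kf E E')) ⊓
    (M'.lk t).comap (hat X (LinearMap.snd Kf E E'))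

/-- Direct sum of copies of a structure. -/
noncomputable def Str.pow (M : Str X E) (I : Type) : Str X (I →₀ E) where
  z x k := ⨅ l : I, (M.z x k).comap (Finsupp.lapply l)
  mono x _ _ h := iInf_mono fun _ => Submodule.comap_mono (M.mono x h)
  z0 x := by
    rw [eq_bot_iff]
    intro v hv
    simp only [Submodule.mem_iInf, Submodule.mem_comap, M.z0, Submodule.mem_bot] at hv ⊢
    exact Finsupp.ext hv
  z4 x := by simp [M.z4]
  lk t := ⨅ l : I, (M.lk t).comap (hat X (Finsupp.lapply l))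

noncomputable def Act.prod (a : Act E) (a' : Act E') : Act (E × E') where
  φ :=
    { toFun := fun α => (a.φ α).prodMap (a'.φ α)
      map_add' := fun α β => by ext <;> simp
      map_smul' := fun r α => by ext <;> simp }
  mul α β := by ext <;> simp [a.mul, a'.mul]
  smooth v := by
    filter_upwards [a.smooth v.1, a'.smooth v.2] with S h1 h2
    ext <;> simp [h1, h2]

noncomputable def Act.pow (a : Act E) (I : Type) : Act (I →₀ E) where
  φ :=
    { toFun := fun α => Finsupp.mapRange.linearMap (a.φ α)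
      map_add' := fun α β => by ext; simp [Finsupp.single_add]
      map_smul' := fun r α => by ext; simp [Finsupp.single_apply] }
  mul α β := by ext; simp [a.mul]
  smooth v := by
    filter_upwards [(Filter.eventually_all_finset v.support).2 fun l _ => a.smooth (v l)]
      with S h
    ext l
    by_cases hl : l ∈ v.support
    · simpa using h l hl
    · simp [Finsupp.notMem_support_iff.1 hl]

/-- The action through the first scalar component. -/
noncomputable def actN1 (e : E →ₗ[Kf] E) (he : e ∘ₗ e = e) : Act E where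
  φ :=
    { toFun := fun α => α.2.1 • e
      map_add' := fun α β => by simp [add_smul]
      map_smul' := fun r α => by simp [mul_smul] }
  mul α β := by
    simp [Module.End.mul_eq_comp, LinearMap.smul_comp, LinearMap.comp_smul, he, smul_smul,
      mul_comm]
  smooth v := Filter.Eventually.of_forall fun S => by simp [apx_snd]

/-- The action through the second scalar component. -/
noncomputable def actN2 (e : E →ₗ[Kf] E) (he : e ∘ₗ e = e) : Act E where
  φ :=
    { toFun := fun α => α.2.2 • e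
      map_add' := fun α β => by simp [add_smul]
      map_smul' := fun r α => by simp [mul_smul] }
  mul α β := by
    simp [Module.End.mul_eq_comp, LinearMap.smul_comp, LinearMap.comp_smul, he, smul_smul,
      mul_comm]
  smooth v := Filter.Eventually.of_forall fun S => by simp [apx_snd]

end

section

variable {X : Type}

/-- `s ≤ t` in all structures. -/
def ULe (s t : Tm X) : Prop :=
  ∀ (E : Type) [AddCommGroup E] [Module Kf E] (M : Str X E), M.ev s ≤ M.ev t

/-- `s ≤ t` in all plain members over `S`. -/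
def PValOn (A : Tm X → Prop) (φ : X → Bool) (S : Finset (Tm X)) (s t : Tm X) : Prop :=
  ∀ (E : Type) [AddCommGroup E] [Module Kf E] (M : Str X E) (e : E →ₗ[Kf] E),
    PMem A φ S M e → RLe (hat X e) (M.ev s) (M.ev t)

/-- `s ≤ t` in all decorated members over `S`. -/
def ValOn (A : Tm X → Prop) (q : X → N5) (S : Finset (Tm X)) (s t : Tm X) : Prop :=
  ∀ (E : Type) [AddCommGroup E] [Module Kf E] (a : Act E) (M : Str X E),
    Mem A q S a M → RLe (hat X (a.φ 1)) (M.ev s) (M.ev t)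

/-- The pairs `s0 ≤ s1` and `t0 ≤ t1` are independent. -/
def Indep (s0 s1 t0 t1 : Tm X) : Prop :=
  ULe s0 s1 ∧ ULe t0 t1 ∧ ULe (.inf s1 t1) (.inf s0 t0)

/-- The condition under which a link is active. -/
def Cond (A : Tm X → Prop) : Tm X → Prop
  | .lk Y p s0 s1 t0 t1 => Indep s0 s1 t0 t1 ∧
      ((∃ φ : X → Bool, Att (fun x => ofB (φ x)) (.lk Y p s0 s1 t0 t1) ∧
          ¬ PValOn A φ (Tm.lk Y p s0 s1 t0 t1).args s1 s0 ∧
          ∀ ψ : X → Bool, ¬ Att (fun x => ofB (ψ x)) (.lk Y p s0 s1 t0 t1) →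
            PValOn A ψ (Tm.lk Y p s0 s1 t0 t1).args s1 s0 ∧
            PValOn A ψ (Tm.lk Y p s0 s1 t0 t1).args t1 t0) ∨
        (Onto p (Tm.lk Y p s0 s1 t0 t1).supp ∧
          ¬ ValOn A p (Tm.lk Y p s0 s1 t0 t1).args s1 s0 ∧
          PValOn A (fun x => p1 (p x)) (Tm.lk Y p s0 s1 t0 t1).args t1 t0 ∧
          PValOn A (fun x => p2 (p x)) (Tm.lk Y p s0 s1 t0 t1).args t1 t0))
  | _ => False

/-- The finest system of pieces for an atom with support `Y`, each with its change of labels. -/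
noncomputable def fine (q : X → N5) (Y : Set X) : List (Alg × (N5 → N5)) :=
  if ∀ x ∈ Y, q x = o ∨ q x = i then
    [(e01, fun l => ofB (p01 l)), (n1, fun l => ofB (p1 l)), (n2, fun l => ofB (p2 l))]
  else if ∀ x ∈ Y, q x ≠ c then
    [(e01, fun l => ofB (p01 l)), (e11, fun l => ofB (p1 l)), (e00, fun l => ofB (p2 l))]
  else if ∀ x ∈ Y, q x ≠ b then [(f1, fun l => ofB (p1 l)), (f2, fun l => ofB (p2 l))]
  else if ∀ x ∈ Y, q x ≠ a then [(g1, fun l => ofB (p1 l)), (g2, fun l => ofB (p2 l))]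
  else [(1, fun l => l)]

/-- Every member over a smaller closed set is a retract of a member over `S`. -/
def SE (A : Tm X → Prop) (S : Finset (Tm X)) : Prop :=
  ∀ (q : X → N5) (S0 : Finset (Tm X)), Closed S0 → S0 ⊆ S →
    ∀ (E : Type) [AddCommGroup E] [Module Kf E] (a : Act E) (M : Str X E), Mem A q S0 a M →
      ∃ (E' : Type) (_ : AddCommGroup E') (_ : Module Kf E') (a' : Act E') (M' : Str X E')
        (f : E →ₗ[Kf] E') (g : E' →ₗ[Kf] E), Mem A q S a' M' ∧
        (∀ t ∈ S0, AtomHom M M' f t ∧ AtomHom M' M g t) ∧ ∀ α, g ∘ₗ a'.φ α ∘ₗ f = a.φ α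

/-- Every plain member of colour `p01 ∘ q` is the `e01`-piece of a decorated member. -/
def GE (A : Tm X → Prop) (S : Finset (Tm X)) : Prop :=
  ∀ (q : X → N5), (∀ t ∈ S, ∀ x ∈ t.supp, q x ≠ c) →
    ∀ (E : Type) [AddCommGroup E] [Module Kf E] (M : Str X E) (e : E →ₗ[Kf] E),
      PMem A (fun x => p01 (q x)) S M e →
      ∃ (E' : Type) (_ : AddCommGroup E') (_ : Module Kf E') (a' : Act E') (M' : Str X E')
        (f : E →ₗ[Kf] E') (g : E' →ₗ[Kf] E), Mem A q S a' M' ∧
        (∀ t ∈ S, AtomHom M M' f t ∧ AtomHom M' M g t) ∧ g ∘ₗ a'.φ e01 ∘ₗ f = e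

/-- Validity of `s ≤ t` at `q`. -/
def Val (A : Tm X → Prop) (q : X → N5) (s t : Tm X) : Prop := ValOn A q (s.sub ∪ t.sub) s t

/-- The link inequalities hold at `q`. -/
def LinkV (V : (X → N5) → Tm X → Tm X → Prop) (q : X → N5) (s s0 s1 t0 t1 : Tm X) : Prop :=
  V q (.sup s0 t0) s ∧ V q s (.sup s1 t1) ∧ V q t1 (.sup s s1) ∧ V q (.inf s t1) t0

/-- What the lattice theoretic part needs to know about validity `V q s t` of `s ≤ t` at `q`. -/
structure Sem (V : (X → N5) → Tm X → Tm X → Prop) : Prop where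
  ule : ∀ {q s t}, ULe s t → V q s t
  trans : ∀ {q s t u}, V q s t → V q t u → V q s u
  sup_le : ∀ {q s t u}, V q s u → V q t u → V q (.sup s t) u
  le_inf : ∀ {q s t u}, V q u s → V q u t → V q u (.inf s t)
  loc : ∀ {q q' s t}, (∀ x ∈ s.supp ∪ t.supp, q x = q' x) → V q s t → V q' s t
  dec_c : ∀ {q s t}, (∀ x ∈ s.supp ∪ t.supp, q x ≠ c) → V (fun x => ofB (p1 (q x))) s t →
    V (fun x => ofB (p2 (q x))) s t → V (fun x => ofB (p01 (q x))) s t → V q s t
  dec_b : ∀ {q s t}, (∀ x ∈ s.supp ∪ t.supp, q x ≠ b) → V (fun x => ofB (p1 (q x))) s t →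
    V (fun x => ofB (p2 (q x))) s t → V q s t
  dec_a : ∀ {q s t}, (∀ x ∈ s.supp ∪ t.supp, q x ≠ a) → V (fun x => ofB (p1 (q x))) s t →
    V (fun x => ofB (p2 (q x))) s t → V q s t
  sp1 : ∀ {q s t}, V q s t → V (fun x => ofB (p1 (q x))) s t
  sp2 : ∀ {q s t}, V q s t → V (fun x => ofB (p2 (q x))) s t
  sp01 : ∀ {q s t}, (∀ x ∈ s.supp ∪ t.supp, q x ≠ c) → V q s t →
    V (fun x => ofB (p01 (q x))) s t
  flag_t : ∀ {φ : X → Bool} {x j}, φ x = true →
    V (fun x => ofB (φ x)) (.fl x 2 j) (.fl x 1 j) ∧ V (fun x => ofB (φ x)) (.fl x 4 j) (.fl x 3 j)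
  flag_f : ∀ {φ : X → Bool} {x j}, φ x = false →
    V (fun x => ofB (φ x)) (.fl x 1 j) (.fl x 0 j) ∧ V (fun x => ofB (φ x)) (.fl x 3 j) (.fl x 2 j)
  openA : ∀ {φ : X → Bool} {x y j}, φ x = true → φ y = false →
    ¬ V (fun x => ofB (φ x)) (.inf (.fl x 1 j) (.fl y 2 j)) .bot
  openB : ∀ {φ : X → Bool} {x y j}, φ x = true → φ y = false →
    ¬ V (fun x => ofB (φ x)) (.fl x 1 j) (.fl y 3 j)
  link2 : ∀ {φ : X → Bool} {Y s0 s1 t0 t1}, Indep s0 s1 t0 t1 →
    (∀ x ∈ s0.supp ∪ s1.supp ∪ t0.supp ∪ t1.supp, x ∈ Y) →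
    ¬ V (fun x => ofB (φ x)) s1 s0 →
    (∀ ψ : X → Bool, (∃ y ∈ Y, ψ y ≠ φ y) →
      V (fun x => ofB (ψ x)) s1 s0 ∧ V (fun x => ofB (ψ x)) t1 t0) →
    LinkV V (fun x => ofB (φ x)) (.lk Y (fun x => ofB (φ x)) s0 s1 t0 t1) s0 s1 t0 t1
  link5 : ∀ {p : X → N5} {Y s0 s1 t0 t1}, Indep s0 s1 t0 t1 → Onto p {y | y ∈ Y} →
    ¬ V p s1 s0 → V (fun x => ofB (p1 (p x))) t1 t0 → V (fun x => ofB (p2 (p x))) t1 t0 →
    LinkV V p (.lk Y p s0 s1 t0 t1) s0 s1 t0 t1

end

end Pool.Agent.P.MP_4a7a83_al.MF
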