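import Pool.Agent.P.MP_4a7a83_al.F.Basic

/-!
Plain members as decorated members.
-/

namespace Pool.Agent.P.MP_4a7a83_al.MF

set_option linter.unusedSectionVars false
set_option maxSynthPendingDepth 4

variable [Fld]

open Classical N5

variable {X E : Type} [AddCommGroup E] [Module Kf E]

theorem plainAx_zero (A : Tm X → Prop) (φ : X → Bool) (M : Str X E) (t : Tm X) :
    PlainAx A φ M 0 t := by
  cases t
  case fl x k j => exact flagAx_zero _ _
  case lk Y p s0 s1 t0 t1 =>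
    refine ⟨fun _ => ?_, fun _ => ?_⟩
    · simp only [LinkAx, hat_zero]; exact linkS_zero _ _ _ _ _
    · simp only [TrivAx, hat_zero]; exact trivS_zero _ _ _
  all_goals exact ⟨fun _ => trivial, fun _ => trivial⟩

theorem linkAx_zero (M : Str X E) (t : Tm X) : LinkAx M 0 t := by
  cases t
  case lk Y p s0 s1 t0 t1 => simp only [LinkAx, hat_zero]; exact linkS_zero _ _ _ _ _
  all_goals trivial

/-- A plain member with a scalar action is a decorated member. -/
theorem mem_scal {A : Tm X → Prop} (hA : ∀ t, A t → Cond A t) {q : X → N5} {S : Finset (Tm X)}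
    (hS : Closed S) {M : Str X E} {e : E →ₗ[Kf] E} {d : N5 → Bool} (hd : d = p1 ∨ d = p2)
    (h : PMem A (fun x => d (q x)) S M e) (a : Act E) (ha : ∀ α, ∃ r : Kf, a.φ α = r • e)
    (h1 : a.φ 1 = e) (hπ : ∀ π : Pc, a.φ π.idem = 0 ∨ (a.φ π.idem = e ∧ π.col = d)) :
    Mem A q S a M := by
  intro t ht
  obtain ⟨b1, b2⟩ := h.2 t ht
  refine ⟨fun π _ => ?_, fun _ α => ?_, h1 ▸ b1, fun ho hAt hat' => ?_⟩
  · rcases hπ π with h0 | ⟨h0, hc⟩
    · rw [h0]; exact ⟨atomHom_zero _ _ _, plainAx_zero _ _ _ _⟩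
    · rw [h0, hc]; exact ⟨b1, b2⟩
  · obtain ⟨r, hr⟩ := ha α
    rw [hr]; exact b1.smul r
  · rw [h1]
    cases t
    case lk Y p s0 s1 t0 t1 =>
      obtain ⟨x, hx, hxa⟩ := ho.1
      have hno : ∀ ψ : X → Bool, ¬ Att (fun x => ofB (ψ x)) (Tm.lk Y p s0 s1 t0 t1) :=
        fun ψ hψ => ofB_ne_a (ψ x) (by rw [← hxa, ← hat' x hx]; exact (hψ x hx).symm)
      obtain ⟨hI, hc⟩ := hA _ hAt
      have hv : PValOn A (fun x => d (p x)) (Tm.lk Y p s0 s1 t0 t1).args t1 t0 := by
        rcases hc with ⟨φ, hφ, -⟩ | ⟨-, -, c1, c2⟩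
        · exact absurd hφ (hno φ)
        · rcases hd with rfl | rfl
          · exact c1
          · exact c2
      have hcl : RLe (hat X e) (M.ev t1) (M.ev t0) := by
        refine hv E M e ((h.mono (hS.args_subset ht)).congr_col fun u hu y hy => ?_)
        show d (q y) = d (p y)
        rw [hat' y (Tm.supp_subset_of_mem_args hu hy)]
      exact TrivS.linkS (b2.2 fun hh => hno _ hh.2) (hat_idem h.1) (hI.1 E M) (hI.2.1 E M) hcl
    all_goals trivial

/-- With the zero action every structure is a member. -/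
theorem mem_zero (A : Tm X → Prop) (q : X → N5) (S : Finset (Tm X)) (M : Str X E) :
    Mem A q S (actN1 (0 : E →ₗ[Kf] E) (LinearMap.comp_zero _)) M := by
  have h0 : ∀ α, (actN1 (0 : E →ₗ[Kf] E) (LinearMap.comp_zero _)).φ α = 0 := fun α =>
    smul_zero _
  intro t _
  refine ⟨fun π _ => ?_, fun _ α => ?_, ?_, fun _ _ _ => ?_⟩
  · rw [h0]; exact ⟨atomHom_zero _ _ _, plainAx_zero _ _ _ _⟩
  · rw [h0]; exact atomHom_zero _ _ _
  · rw [h0]; exact atomHom_zero _ _ _
  · rw [h0]; exact linkAx_zero _ _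

theorem mem_N1 {A : Tm X → Prop} (hA : ∀ t, A t → Cond A t) {q : X → N5} {S : Finset (Tm X)}
    (hS : Closed S) {M : Str X E} {e : E →ₗ[Kf] E} (h : PMem A (fun x => p1 (q x)) S M e) :
    Mem A q S (actN1 e h.1) M := by
  refine mem_scal hA hS (Or.inl rfl) h _ (fun α => ⟨α.2.1, rfl⟩) (one_smul _ _) fun π => ?_
  cases π
  · exact Or.inl (zero_smul _ _)
  · exact Or.inl (zero_smul _ _)
  · exact Or.inr ⟨one_smul _ _, rfl⟩
  · exact Or.inr ⟨one_smul _ _, rfl⟩
  · exact Or.inl (zero_smul _ _)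
  · exact Or.inr ⟨one_smul _ _, rfl⟩
  · exact Or.inl (zero_smul _ _)

theorem mem_N2 {A : Tm X → Prop} (hA : ∀ t, A t → Cond A t) {q : X → N5} {S : Finset (Tm X)}
    (hS : Closed S) {M : Str X E} {e : E →ₗ[Kf] E} (h : PMem A (fun x => p2 (q x)) S M e) :
    Mem A q S (actN2 e h.1) M := by
  refine mem_scal hA hS (Or.inr rfl) h _ (fun α => ⟨α.2.2, rfl⟩) (one_smul _ _) fun π => ?_
  cases π
  · exact Or.inr ⟨one_smul _ _, rfl⟩
  · exact Or.inl (zero_smul _ _)
  · exact Or.inl (zero_smul _ _)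
  · exact Or.inl (zero_smul _ _)
  · exact Or.inr ⟨one_smul _ _, rfl⟩
  · exact Or.inl (zero_smul _ _)
  · exact Or.inr ⟨one_smul _ _, rfl⟩

/-- The `n1`-part of a decorated member at a two-valued labelling is a plain member. -/
theorem Mem.plain_n1 {A : Tm X → Prop} {φ : X → Bool} {S : Finset (Tm X)} (hS : Closed S)
    {a : Act E} {M : Str X E} (h : Mem A (fun x => ofB (φ x)) S a M) :
    PMem A φ S M (a.φ n1) := by
  have h1 : PMem A φ S M (a.φ e11) :=
    (h.piece Pc.v11 fun _ _ x _ => ofB_ne_c (φ x)).congr_col fun _ _ x _ => p1_ofB (φ x)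
  refine h1.below hS (by rw [a.comp, n1_e11]) (by rw [a.comp, n1_n1]) fun t ht => ?_
  exact (h t ht).2.1 (fun x _ => ofB_oi (φ x)) n1

theorem pvalOn_iff {A : Tm X → Prop} (hA : ∀ t, A t → Cond A t) {φ : X → Bool}
    {S : Finset (Tm X)} (hS : Closed S) (s t : Tm X) :
    PValOn A φ S s t ↔ ValOn A (fun x => ofB (φ x)) S s t := by
  constructor
  · intro hv E _ _ a M hM
    have h0 : PMem A φ S M (a.φ e00) :=
      (hM.piece Pc.v00 fun _ _ x _ => ofB_ne_c (φ x)).congr_col fun _ _ x _ => p2_ofB (φ x)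
    have h1 : PMem A φ S M (a.φ e01) :=
      (hM.piece Pc.v01 fun _ _ x _ => ofB_ne_c (φ x)).congr_col fun _ _ x _ => p01_ofB (φ x)
    have h2 : PMem A φ S M (a.φ e11) :=
      (hM.piece Pc.v11 fun _ _ x _ => ofB_ne_c (φ x)).congr_col fun _ _ x _ => p1_ofB (φ x)
    rw [← e_sum, a.hat_add, a.hat_add]
    exact ((hv E M _ h0).add (hv E M _ h1)).add (hv E M _ h2)
  · intro hv E _ _ M e hM
    have h1 : PMem A (fun x => p1 (ofB (φ x))) S M e :=
      hM.congr_col fun _ _ x _ => (p1_ofB (φ x)).symm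
    have h2 := hv E _ M (mem_N1 (q := fun x => ofB (φ x)) hA hS h1)
    have h3 : (actN1 e h1.1).φ 1 = e := one_smul _ _
    rwa [h3] at h2

end Pool.Agent.P.MP_4a7a83_al.MF
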