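import Pool.Agent.P.MP_4a7a83_al.F.Sums
import Pool.Agent.P.MP_4a7a83_al.F.Plain
import Pool.Agent.P.MP_4a7a83_al.F.Big

/-!
Enlarging a member until there is room for a link.
-/

namespace Pool.Agent.P.MP_4a7a83_al.MF

set_option linter.unusedSectionVars false
set_option maxSynthPendingDepth 4

variable [Fld]

open Classical N5

theorem fine_cases {X : Type} {q : X → N5} {Y : Set X} {f : Alg × (N5 → N5)}
    (hf : f ∈ fine q Y) :
    ((∀ x ∈ Y, q x = o ∨ q x = i) ∧ (f = (e01, fun l => ofB (p01 l)) ∨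
      f = (n1, fun l => ofB (p1 l)) ∨ f = (n2, fun l => ofB (p2 l)))) ∨
    (∃ π : Pc, (∀ x ∈ Y, q x ≠ π.out) ∧ f = (π.idem, fun l => ofB (π.col l))) ∨
    (Onto q Y ∧ f = (1, fun l => l)) := by
  unfold fine at hf
  split_ifs at hf with h1 h2 h3 h4 <;>
    simp only [List.mem_cons, List.not_mem_nil, or_false] at hf
  · exact .inl ⟨h1, hf⟩
  · rcases hf with rfl | rfl | rfl
    exacts [.inr (.inl ⟨.v01, h2, rfl⟩), .inr (.inl ⟨.v11, h2, rfl⟩), .inr (.inl ⟨.v00, h2, rfl⟩)]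
  · rcases hf with rfl | rfl
    exacts [.inr (.inl ⟨.w1, h3, rfl⟩), .inr (.inl ⟨.w2, h3, rfl⟩)]
  · rcases hf with rfl | rfl
    exacts [.inr (.inl ⟨.u1, h4, rfl⟩), .inr (.inl ⟨.u2, h4, rfl⟩)]
  · push Not at h2 h3 h4
    exact .inr (.inr ⟨⟨h4, h3, h2⟩, hf⟩)

theorem fine_idem {X : Type} {q : X → N5} {Y : Set X} {f : Alg × (N5 → N5)} (hf : f ∈ fine q Y) :
    f.1 * f.1 = f.1 := by
  rcases fine_cases hf with ⟨-, rfl | rfl | rfl⟩ | ⟨π, -, rfl⟩ | ⟨-, rfl⟩
  exacts [e01_e01, n1_n1, n2_n2, π.idem_mul_self, one_mul _]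

theorem fine_stab {X E : Type} [AddCommGroup E] [Module Kf E] {A : Tm X → Prop} {q : X → N5}
    {S : Finset (Tm X)} (hS : Closed S) {a : Act E} {M : Str X E} (hM : Mem A q S a M)
    {Y : Set X} {f : Alg × (N5 → N5)} (hf : f ∈ fine q Y) {t : Tm X} (ht : t ∈ S)
    (hY : t.supp ⊆ Y) : RLe (hat X (a.φ f.1)) (M.ev t) (M.ev t) := by
  refine ev_hom (closed_sub t) (fun u hu => ?_) t.mem_sub_self
  have h1 := hM u (hS.sub_subset ht hu)
  have h2 : u.supp ⊆ Y := (Tm.supp_subset_of_mem_sub hu).trans hY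
  rcases fine_cases hf with ⟨h, -⟩ | ⟨π, h, rfl⟩ | ⟨-, rfl⟩
  · exact h1.2.1 (fun x hx => h x (h2 hx)) _
  · exact (h1.1 π fun x hx => h x (h2 hx)).1
  · exact h1.2.2.1

/-- Some member over `S` has `s1 ≤ s0` failing on the part cut out by `α`; if `z` holds, its
`e01`-part vanishes. -/
def Wit {X : Type} (A : Tm X → Prop) (q : X → N5) (S : Finset (Tm X)) (z : Prop) (α : Alg)
    (s0 s1 : Tm X) : Prop :=
  ∃ (E : Type) (_ : AddCommGroup E) (_ : Module Kf E) (a : Act E) (M : Str X E),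
    Mem A q S a M ∧ (z → a.φ e01 = 0) ∧ ¬ RLe (hat X (a.φ α)) (M.ev s1) (M.ev s0)

/-- One member that is a witness for finitely many pieces. -/
theorem joint_wit {X E : Type} [AddCommGroup E] [Module Kf E] {A : Tm X → Prop} {q : X → N5}
    {S : Finset (Tm X)} (M : Str X E) {s0 s1 : Tm X} (z : Prop)
    (P : Alg × (N5 → N5) → Prop) (L : List (Alg × (N5 → N5)))
    (hP : ∀ f ∈ L, P f → Wit A q S z f.1 s0 s1) :
    ∃ (W : Type) (_ : AddCommGroup W) (_ : Module Kf W) (a : Act W) (N : Str X W),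
      Mem A q S a N ∧ (z → a.φ e01 = 0) ∧
        ∀ f ∈ L, P f → ¬ RLe (hat X (a.φ f.1)) (N.ev s1) (N.ev s0) := by
  induction L with
  | nil =>
    exact ⟨E, _, _, _, M, mem_zero A q S M, fun _ => by simp [actN1], by simp⟩
  | cons g L ih =>
    obtain ⟨W, _, _, a, N, h1, h2, h3⟩ := ih fun f hf => hP f (List.mem_cons_of_mem _ hf)
    by_cases hg : P g
    · obtain ⟨W', _, _, a', N', k1, k2, k3⟩ := hP g List.mem_cons_self hg
      refine ⟨W × W', _, _, a.prod a', N.prod N', h1.prod k1, fun hz => ?_, fun f hf hp => ?_⟩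
      · change (a.φ e01).prodMap (a'.φ e01) = 0
        rw [h2 hz, k2 hz]
        ext <;> simp
      · rcases List.mem_cons.1 hf with rfl | hf
        · exact fun h => k3 (rle_of_retract (f := LinearMap.inr Kf W W')
            (g := LinearMap.snd Kf W W') (by ext; simp [Act.prod])
            (ev_hom_all (atomHom_inr N N') _) (ev_hom_all (atomHom_snd N N') _) h)
        · exact fun h => h3 f hf hp (rle_of_retract (f := LinearMap.inl Kf W W')
            (g := LinearMap.fst Kf W W') (by ext; simp [Act.prod])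
            (ev_hom_all (atomHom_inl N N') _) (ev_hom_all (atomHom_fst N N') _) h)
    · refine ⟨W, _, _, a, N, h1, h2, fun f hf hp => ?_⟩
      rcases List.mem_cons.1 hf with rfl | hf
      · exact absurd hp hg
      · exact h3 f hf hp

theorem enlarge {X E : Type} [AddCommGroup E] [Module Kf E] {A : Tm X → Prop} {q : X → N5}
    {S : Finset (Tm X)} (hS : Closed S) {a : Act E} {M : Str X E} (hM : Mem A q S a M)
    {Y : Set X} {s0 s1 : Tm X} (hs : s1 ∈ S) (hY : s1.supp ⊆ Y) (z : Prop)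
    (P : Alg × (N5 → N5) → Prop) (hP : ∀ f ∈ fine q Y, P f → Wit A q S z f.1 s0 s1) :
    ∃ (E' : Type) (_ : AddCommGroup E') (_ : Module Kf E') (a' : Act E') (M' : Str X E')
      (ι : E →ₗ[Kf] E') (r : E' →ₗ[Kf] E), Mem A q S a' M' ∧
      (∀ t, AtomHom M M' ι t ∧ AtomHom M' M r t) ∧ r ∘ₗ ι = LinearMap.id ∧
      (∀ α, r ∘ₗ a'.φ α = a.φ α ∘ₗ r) ∧ (z → a'.φ e01 = ι ∘ₗ a.φ e01 ∘ₗ r) ∧
      ∀ f ∈ fine q Y, P f → Big (hat X (a'.φ f.1)) (M'.ev s0) (M'.ev s1) := by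
  obtain ⟨W, _, _, aW, N, h1, h2, h3⟩ := joint_wit M z P _ hP
  obtain ⟨I, -, hI⟩ := exists_big X E W
  refine ⟨E × (I →₀ W), _, _, a.prod (aW.pow I), M.prod (N.pow I), LinearMap.inl Kf _ _,
    LinearMap.fst Kf _ _, hM.prod (h1.pow I), fun t => ⟨atomHom_inl _ _ t, atomHom_fst _ _ t⟩,
    LinearMap.fst_comp_inl _ _ _, fun α => LinearMap.ext fun v => rfl, fun hz => ?_,
    fun f hf hp => hI a M aW N f.1 s0 s1 (fine_idem hf) (fine_stab hS h1 hf hs hY) (h3 f hf hp)⟩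
  refine LinearMap.ext fun v => Prod.ext rfl (Finsupp.ext fun l => ?_)
  change aW.φ e01 (v.2 l) = 0
  rw [h2 hz]
  rfl

end Pool.Agent.P.MP_4a7a83_al.MF
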