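import Pool.Agent.P.MP_4a7a83_al.F.Basic

/-!
The set of active links exists.
-/

namespace Pool.Agent.P.MP_4a7a83_al.MF

set_option linter.unusedSectionVars false
set_option maxSynthPendingDepth 4

variable [Fld]

open Classical N5

namespace FixA

variable {X : Type} {A A' : Tm X → Prop}

theorem plainAx {E : Type} [AddCommGroup E] [Module Kf E] {t : Tm X} (h : A t ↔ A' t)
    (φ : X → Bool) (M : Str X E) (e : E →ₗ[Kf] E) : PlainAx A φ M e t ↔ PlainAx A' φ M e t := by
  cases t <;> simp only [PlainAx, h]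

theorem pval {S : Finset (Tm X)} (h : ∀ u ∈ S, A u ↔ A' u) (φ : X → Bool) (s t : Tm X) :
    PValOn A φ S s t ↔ PValOn A' φ S s t :=
  forall₅_congr fun _ _ _ M e => imp_congr_left (and_congr_right fun _ =>
    forall₂_congr fun u hu => and_congr_right fun _ => plainAx (h u hu) φ M e)

theorem val {S : Finset (Tm X)} (h : ∀ u ∈ S, A u ↔ A' u) (q : X → N5) (s t : Tm X) :
    ValOn A q S s t ↔ ValOn A' q S s t :=
  forall₅_congr fun _ _ _ a M => imp_congr_left (forall₂_congr fun u hu => by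
    simp only [Ax, plainAx (h u hu), h u hu])

theorem cond {t : Tm X} (h : ∀ u ∈ t.args, A u ↔ A' u) : Cond A t ↔ Cond A' t := by
  cases t <;> simp only [Cond, pval h, val h]

end FixA

theorem exists_fix (X : Type) : ∃ A : Tm X → Prop, ∀ t, A t ↔ Cond A t := by
  have wf : WellFounded fun u t : Tm X => sizeOf u < sizeOf t := InvImage.wf sizeOf Nat.lt_wfRel.wf
  refine ⟨wf.fix fun t r => Cond (fun u => ∃ h : sizeOf u < sizeOf t, r u h) t, fun t => ?_⟩
  rw [wf.fix_eq]
  exact FixA.cond fun u hu => ⟨fun ⟨_, h⟩ => h, fun h => ⟨Tm.sizeOf_lt_of_mem_args hu, h⟩⟩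

end Pool.Agent.P.MP_4a7a83_al.MF
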