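import Pool.Agent.P.MP_4a7a83_al.F.Defs

/-!
Existence of flags with a prescribed part in the piece `e01`.
-/

namespace Pool.Agent.P.MP_4a7a83_al.MF

set_option linter.unusedSectionVars false
set_option maxSynthPendingDepth 4

variable [Fld]

open Classical N5

namespace FlagA

variable {E : Type} [AddCommGroup E] [Module Kf E] (a : Act E)

/-- The range of an element of the algebra. -/
noncomputable def R (y : Alg) : Submodule Kf E := LinearMap.range (a.φ y)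

variable {a}

theorem app_mul (x y : Alg) (v : E) : a.φ x (a.φ y v) = a.φ (x * y) v := by
  rw [a.mul]; rfl

theorem rsup {f : E →ₗ[Kf] E} {A A' B : Submodule Kf E} (h : RLe f A B) (h' : RLe f A' B) :
    RLe f (A ⊔ A') B :=
  (sup_le h h' : A ⊔ A' ≤ B.comap f)

theorem rR {x y w : Alg} {B : Submodule Kf E} (h : x * y = w) (hB : R a w ≤ B) :
    RLe (a.φ x) (R a y) B := by
  rintro _ ⟨v, rfl⟩
  rw [app_mul, h]
  exact hB ⟨v, rfl⟩

theorem r0 {x y : Alg} {B : Submodule Kf E} (h : x * y = 0) : RLe (a.φ x) (R a y) B := by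
  rintro _ ⟨v, rfl⟩
  rw [app_mul, h, map_zero]
  exact B.zero_mem

theorem rtop {x : Alg} {B : Submodule Kf E} (hB : R a x ≤ B) : RLe (a.φ x) ⊤ B :=
  fun v _ => hB ⟨v, rfl⟩

theorem R_mul (x y : Alg) : R a (x * y) ≤ R a x := by
  rintro _ ⟨v, rfl⟩
  exact ⟨a.φ y v, app_mul x y v⟩

theorem R_add {w x y : Alg} {B : Submodule Kf E} (h : w = x + y) (hx : R a x ≤ B)
    (hy : R a y ≤ B) : R a w ≤ B := by
  rintro _ ⟨v, rfl⟩
  rw [h, map_add]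
  exact B.add_mem (hx ⟨v, rfl⟩) (hy ⟨v, rfl⟩)

theorem R_sub {w x y : Alg} {B : Submodule Kf E} (h : w = x - y) (hx : R a x ≤ B)
    (hy : R a y ≤ B) : R a w ≤ B := by
  rintro _ ⟨v, rfl⟩
  rw [h, map_sub]
  exact B.sub_mem (hx ⟨v, rfl⟩) (hy ⟨v, rfl⟩)

section

variable {u : Submodule Kf E} (hu : ∀ v ∈ u, a.φ e01 v = v) {B : Submodule Kf E} {x : Alg}

include hu

theorem u_app {v : E} (hv : v ∈ u) (x : Alg) : a.φ x v = a.φ (x * e01) v := by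
  rw [← app_mul, hu v hv]

theorem ru0 (h : x * e01 = 0) : RLe (a.φ x) u B := fun v hv => by
  rw [u_app hu hv, h, map_zero]
  exact B.zero_mem

theorem ru1 (h : x * e01 = e01) (hB : u ≤ B) : RLe (a.φ x) u B := fun v hv => by
  rw [u_app hu hv, h, hu v hv]
  exact hB hv

end

theorem rm0 {u B : Submodule Kf E} {x y : Alg} (h : x * y = 0) :
    RLe (a.φ x) (u.map (a.φ y)) B := by
  rintro _ ⟨v, -, rfl⟩
  rw [app_mul, h, map_zero]
  exact B.zero_mem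

theorem rm1 {u : Submodule Kf E} {x y : Alg} (h : x * y = y) :
    RLe (a.φ x) (u.map (a.φ y)) (u.map (a.φ y)) := by
  rintro _ ⟨v, hv, rfl⟩
  rw [app_mul, h]
  exact ⟨v, hv, rfl⟩

/-- The flag with given middle terms. -/
def fl (z1 z2 z3 : Submodule Kf E) : Fin 5 → Submodule Kf E := ![⊥, z1, z2, z3, ⊤]

theorem fl_mono {z1 z2 z3 : Submodule Kf E} (h1 : z1 ≤ z2) (h2 : z2 ≤ z3) :
    Monotone (fl z1 z2 z3) := by
  rw [Fin.monotone_iff_le_succ]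
  intro i
  fin_cases i
  · exact bot_le
  · exact h1
  · exact h2
  · exact le_top

theorem stab {z1 z2 z3 : Submodule Kf E} (h1 : z1 ≤ z2) (h2 : z2 ≤ z3) {β : Bool}
    {e : E →ₗ[Kf] E} (h : FlagAx β (fl z1 z2 z3) e) (k : Fin 5) :
    RLe e (fl z1 z2 z3 k) (fl z1 z2 z3 k) := by
  have h0 : RLe e ⊥ ⊥ := fun v hv => by
    rw [(Submodule.mem_bot Kf).1 hv, map_zero]
    exact Submodule.zero_mem _
  cases β
  · have a1 : RLe e z1 ⊥ := h.1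
    have a2 : RLe e z3 z2 := h.2
    fin_cases k
    · exact h0
    · exact fun v hv => (bot_le : ⊥ ≤ z1) (a1 v hv)
    · exact fun v hv => a2 v (h2 hv)
    · exact fun v hv => h2 (a2 v hv)
    · exact fun v _ => trivial
  · have a1 : RLe e z2 z1 := h.1
    have a2 : RLe e ⊤ z3 := h.2
    fin_cases k
    · exact h0
    · exact fun v hv => a1 v (h1 hv)
    · exact fun v hv => h1 (a1 v hv)
    · exact fun v _ => a2 v trivial
    · exact fun v _ => trivial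

theorem ax_t {z1 z2 z3 : Submodule Kf E} {e : E →ₗ[Kf] E} (h : RLe e z2 z1) (h' : RLe e ⊤ z3) :
    FlagAx true (fl z1 z2 z3) e := ⟨h, h'⟩

theorem ax_f {z1 z2 z3 : Submodule Kf E} {e : E →ₗ[Kf] E} (h : RLe e z1 ⊥) (h' : RLe e z3 z2) :
    FlagAx false (fl z1 z2 z3) e := ⟨h, h'⟩

theorem ma0 {x y : Alg} (h : x * y = 0) (z : Alg) : x * (y * z) = 0 := by
  rw [← mul_assoc, h, zero_mul]

theorem ma1 {x : Alg} (h : x * x = x) (z : Alg) : x * (x * z) = x * z := by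
  rw [← mul_assoc, h]

theorem e01_f2_e11 : e01 * (f2 * e11) = 0 := by
  rw [f2_eq, sub_mul, one_mul, mul_sub, ← mul_assoc, e01_f1, e01_e11, zero_mul, sub_zero]

theorem flag_a {u : Submodule Kf E} (hu : ∀ v ∈ u, a.φ e01 v = v) :
    ∃ z1 z2 z3 : Submodule Kf E, z1 ≤ z2 ∧ z2 ≤ z3 ∧
      (∀ π : Pc, N5.a ≠ π.out → FlagAx (π.col N5.a) (fl z1 z2 z3) (a.φ π.idem)) ∧
      u ≤ z2 ∧ RLe (a.φ e01) z2 u := by
  have t0 : e00 * (f1 * e01) = 0 := by rw [← mul_assoc, e00_f1_e01]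
  have t1 : e01 * (f1 * e01) = 0 := by rw [← mul_assoc, e01_f1, zero_mul]
  have t2 : e11 * (f1 * e01) = f1 * e01 := by
    conv_rhs => rw [← one_mul (f1 * e01), ← e_sum, add_mul, add_mul, t0, t1, zero_add, zero_add]
  have s2 : e11 * (f2 * e11) = 0 := by rw [← mul_assoc, e11_f2_e11]
  have s0 : e00 * (f2 * e11) = f2 * e11 := by
    rw [e00_eq, sub_mul, sub_mul, one_mul, e01_f2_e11, s2, sub_zero, sub_zero]
  have p1 : f1 * (e00 * f1) = 0 := by rw [← mul_assoc, f1_e00_f1]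
  have p2 : f2 * (e00 * f1) = e00 * f1 := by rw [f2_eq, sub_mul, one_mul, p1, sub_zero]
  have q0 : e01 * (e00 * f1) = 0 := by rw [← mul_assoc, e01_e00, zero_mul]
  set A := u.map (a.φ (f1 * e01)) with hA
  set B := R a (e00 * f1) with hB
  set C := R a (f2 * e11) with hC
  have hB2 : ∀ D : Submodule Kf E, B ≤ D ⊔ (B ⊔ C) ⊔ u := fun D =>
    le_sup_of_le_left (le_sup_of_le_right le_sup_left)
  have hC2 : ∀ D : Submodule Kf E, C ≤ D ⊔ (B ⊔ C) ⊔ u := fun D =>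
    le_sup_of_le_left (le_sup_of_le_right le_sup_right)
  have hD : ∀ D : Submodule Kf E, D ≤ D ⊔ (B ⊔ C) ⊔ u := fun D => le_sup_of_le_left le_sup_left
  refine ⟨A, A ⊔ (B ⊔ C) ⊔ u, R a e11 ⊔ (B ⊔ C) ⊔ u, hD _,
    sup_le_sup_right (sup_le_sup_right ?_ _) _, fun π hπ => ?_, le_sup_right,
    rsup (rsup (rm0 t1) (rsup (r0 q0) (r0 e01_f2_e11))) (ru1 hu e01_e01 le_rfl)⟩
  · rintro _ ⟨v, -, rfl⟩
    exact ⟨a.φ (f1 * e01) v, by rw [app_mul, t2]⟩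
  cases π
  · exact ax_f (rm0 t0) (rsup (rsup (r0 e00_e11)
      (rsup (rR (ma1 e00_e00 _) (hB2 _)) (rR s0 (hC2 _)))) (ru0 hu e00_e01))
  · exact ax_f (rm0 t1) (rsup (rsup (r0 e01_e11) (rsup (r0 q0) (r0 e01_f2_e11)))
      (ru1 hu e01_e01 le_sup_right))
  · exact ax_t (rsup (rsup (rm1 t2) (rsup (r0 (ma0 e11_e00 _)) (r0 s2)))
      (ru0 hu e11_e01)) (rtop (hD _))
  · refine ax_t (rsup (rsup (rm1 (ma1 f1_f1 _)) (rsup (r0 p1)
      (r0 (ma0 f1_f2 _)))) fun v hv => ⟨v, hv, (u_app hu hv f1).symm⟩)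
      (rtop (R_add (x := e00 * f1) (y := e11 * f1) ?_ (hB2 _) ((R_mul _ _).trans (hD _))))
    change f1 = _
    conv_lhs => rw [← one_mul f1, ← e_sum, add_mul, add_mul, e01_f1, add_zero]
  · refine ax_f (rm0 (ma0 f2_f1 _)) (rsup (rsup (rR rfl (hC2 _))
      (rsup (rR p2 (hB2 _)) (rR (ma1 f2_f2 _) (hC2 _)))) fun v hv => ?_)
    change a.φ f2 v ∈ _
    rw [u_app hu hv, f2_eq, sub_mul, one_mul, map_sub, LinearMap.sub_apply, hu v hv]
    exact Submodule.sub_mem _ (Submodule.mem_sup_right hv) (hD _ ⟨v, hv, rfl⟩)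
  · exact absurd rfl hπ
  · exact absurd rfl hπ

theorem flag_b {u : Submodule Kf E} (hu : ∀ v ∈ u, a.φ e01 v = v) :
    ∃ z2 z3 : Submodule Kf E, u ≤ z2 ∧ z2 ≤ z3 ∧
      ∀ π : Pc, N5.b ≠ π.out → FlagAx (π.col N5.b) (fl u z2 z3) (a.φ π.idem) := by
  have s1 : e01 * (g2 * e11) = 0 := by rw [← mul_assoc, e01_g2_e11]
  have s2 : e11 * (g2 * e11) = 0 := by rw [← mul_assoc, e11_g2_e11]
  have s0 : e00 * (g2 * e11) = g2 * e11 := by
    rw [e00_eq, sub_mul, sub_mul, one_mul, s1, s2, sub_zero, sub_zero]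
  have p1 : g1 * (e00 * g1) = 0 := by rw [← mul_assoc, g1_e00_g1]
  have p2 : g2 * (e00 * g1) = e00 * g1 := by rw [g2_eq, sub_mul, one_mul, p1, sub_zero]
  have q1 : g1 * e01 = e01 := by
    conv_rhs => rw [← one_mul e01, ← g_sum, add_mul, g2_e01, add_zero]
  set B := R a (e00 * g1) with hB
  set C := R a (g2 * e11) with hC
  have hB2 : ∀ D : Submodule Kf E, B ≤ D ⊔ (B ⊔ C) := fun D => le_sup_of_le_right le_sup_left
  have hC2 : ∀ D : Submodule Kf E, C ≤ D ⊔ (B ⊔ C) := fun D => le_sup_of_le_right le_sup_right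
  have h1 : R a e01 ≤ (R a e01 ⊔ R a e11) ⊔ (B ⊔ C) := le_sup_of_le_left le_sup_left
  have h2 : R a e11 ≤ (R a e01 ⊔ R a e11) ⊔ (B ⊔ C) := le_sup_of_le_left le_sup_right
  refine ⟨u ⊔ (B ⊔ C), (R a e01 ⊔ R a e11) ⊔ (B ⊔ C), le_sup_left,
    sup_le_sup_right (le_sup_of_le_left fun v hv => ⟨v, hu v hv⟩) _, fun π hπ => ?_⟩
  cases π
  · exact ax_f (ru0 hu e00_e01) (rsup (rsup (r0 e00_e01) (r0 e00_e11))
      (rsup (rR (ma1 e00_e00 _) (hB2 _)) (rR s0 (hC2 _))))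
  · exact ax_t (rsup (ru1 hu e01_e01 le_rfl)
      (rsup (r0 (ma0 e01_e00 _)) (r0 s1))) (rtop h1)
  · exact ax_t (rsup (ru0 hu e11_e01)
      (rsup (r0 (ma0 e11_e00 _)) (r0 s2))) (rtop h2)
  · exact absurd rfl hπ
  · exact absurd rfl hπ
  · refine ax_t (rsup (ru1 hu q1 le_rfl) (rsup (r0 p1) (r0 (ma0 g1_g2 _))))
      (rtop (R_add (x := e00 * g1 + e01 * g1) (y := e11 * g1) ?_
        (R_add rfl (hB2 _) ((R_mul _ _).trans h1)) ((R_mul _ _).trans h2)))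
    change g1 = _
    rw [← add_mul, ← add_mul, e_sum, one_mul]
  · exact ax_f (ru0 hu g2_e01) (rsup (rsup (r0 g2_e01) (rR rfl (hC2 _)))
      (rsup (rR p2 (hB2 _)) (rR (ma1 g2_g2 _) (hC2 _))))

theorem half_c {P P' Q Q' : Alg} (hs : P' + P = 1) (h1 : P * P = P) (h2 : P' * P = 0)
    (h3 : P * P' = 0) (h4 : P' * Q * P' * Q = 0) {z1 z2 z3 : Submodule Kf E}
    (e1 : z1 = R a (P * Q' * P) ⊔ R a (Q * P' * Q))
    (e2 : z2 = z1 ⊔ (R a (P' * Q) ⊔ R a (Q' * P))) (e3 : z3 = R a P ⊔ R a Q) :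
    FlagAx false (fl z1 z2 z3) (a.φ P') ∧ FlagAx true (fl z1 z2 z3) (a.φ P) ∧
      R a (P * Q' * P) ≤ z3 ∧ R a (P' * Q) ≤ z3 := by
  have h5 : P' * (Q * P' * Q) = 0 := by rw [← mul_assoc, ← mul_assoc, h4]
  have h6 : P * (Q * P' * Q) = Q * P' * Q := by
    conv_rhs => rw [← one_mul (Q * P' * Q), ← hs, add_mul, h5, zero_add]
  subst e1 e2 e3
  refine ⟨ax_f (rsup (r0 (by rw [mul_assoc, ← mul_assoc, h2, zero_mul])) (r0 h5))
      (rsup (r0 h2) (rR rfl (le_sup_of_le_right le_sup_left))),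
    ax_t (rsup (rsup (rR (by rw [← mul_assoc, ← mul_assoc, h1]) le_sup_left) (rR h6 le_sup_right))
      (rsup (r0 (ma0 h3 _)) (rR (mul_assoc _ _ _).symm le_sup_left)))
      (rtop le_sup_left), ?_,
    R_sub (x := Q) (y := P * Q) ?_ le_sup_right ((R_mul _ _).trans le_sup_left)⟩
  · rw [mul_assoc]
    exact (R_mul _ _).trans le_sup_left
  · rw [eq_sub_iff_add_eq, ← add_mul, hs, one_mul]

theorem flag_c (a : Act E) : ∃ z1 z2 z3 : Submodule Kf E, z1 ≤ z2 ∧ z2 ≤ z3 ∧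
    ∀ π : Pc, N5.c ≠ π.out → FlagAx (π.col N5.c) (fl z1 z2 z3) (a.φ π.idem) := by
  obtain ⟨a1, a2, a3, a4⟩ := half_c (a := a) (Q' := g1) f_sum f2_f2 f1_f2 f2_f1 f1_g2_f1_g2
    rfl rfl rfl
  obtain ⟨b1, b2, b3, b4⟩ := half_c (a := a) (Q' := f1) g_sum g2_g2 g1_g2 g2_g1 g1_f2_g1_f2
    (sup_comm (R a (f2 * g1 * f2)) _) (congrArg _ (sup_comm (R a (f1 * g2)) _))
    (sup_comm (R a f2) _)
  refine ⟨_, _, _, le_sup_left, sup_le (sup_le a3 b3) (sup_le a4 b4), fun π hπ => ?_⟩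
  cases π
  · exact absurd rfl hπ
  · exact absurd rfl hπ
  · exact absurd rfl hπ
  · exact a1
  · exact a2
  · exact b1
  · exact b2

theorem stab_one {l : N5} {z1 z2 z3 : Submodule Kf E} (h1 : z1 ≤ z2) (h2 : z2 ≤ z3)
    (h : ∀ π : Pc, l ≠ π.out → FlagAx (π.col l) (fl z1 z2 z3) (a.φ π.idem)) (k : Fin 5) :
    RLe (a.φ 1) (fl z1 z2 z3 k) (fl z1 z2 z3 k) := by
  intro v hv
  by_cases hl : l = N5.b
  · subst hl
    rw [← g_sum, map_add]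
    exact Submodule.add_mem _ (stab h1 h2 (h .u1 (by decide)) k v hv)
      (stab h1 h2 (h .u2 (by decide)) k v hv)
  · rw [← f_sum, map_add]
    exact Submodule.add_mem _ (stab h1 h2 (h .w1 hl) k v hv) (stab h1 h2 (h .w2 hl) k v hv)

theorem rbot (e : E →ₗ[Kf] E) : RLe e ⊥ ⊥ := fun v hv => by
  rw [(Submodule.mem_bot Kf).1 hv, map_zero]
  exact Submodule.zero_mem _

theorem ax_o (e : E →ₗ[Kf] E) : FlagAx false (fl ⊥ ⊥ ⊥) e := ax_f (rbot e) (rbot e)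

theorem ax_i (e : E →ₗ[Kf] E) : FlagAx true (fl ⊥ ⊥ ⊤) e := ax_t (rbot e) fun _ _ => trivial

end FlagA

open FlagA in
theorem exists_flag {E : Type} [AddCommGroup E] [Module Kf E] (a : Act E) (l : N5)
    (u : Submodule Kf E) (hu : ∀ v ∈ u, a.φ e01 v = v) :
    ∃ z : Fin 5 → Submodule Kf E, Monotone z ∧ z 0 = ⊥ ∧ z 4 = ⊤ ∧
      (∀ π : Pc, l ≠ π.out →
        (∀ k, RLe (a.φ π.idem) (z k) (z k)) ∧ FlagAx (π.col l) z (a.φ π.idem)) ∧
      (l = N5.o ∨ l = N5.i → ∀ α k, RLe (a.φ α) (z k) (z k)) ∧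
      (∀ k, RLe (a.φ 1) (z k) (z k)) ∧
      (l = N5.a → u ≤ z 2 ∧ RLe (a.φ e01) (z 2) u) ∧
      (l = N5.b → u ≤ z 1 ∧ RLe (a.φ e01) (z 1) u) := by
  cases l
  · have h := fun (e : E →ₗ[Kf] E) => stab le_rfl le_rfl (ax_o e)
    refine ⟨fl ⊥ ⊥ ⊥, fl_mono le_rfl le_rfl, rfl, rfl, fun π _ => ⟨h _, ?_⟩, fun _ _ => h _, h _,
      nofun, nofun⟩
    cases π <;> exact ax_o _
  · obtain ⟨z1, z2, z3, h1, h2, h3, h4⟩ := flag_a hu
    exact ⟨fl z1 z2 z3, fl_mono h1 h2, rfl, rfl, fun π hπ => ⟨stab h1 h2 (h3 π hπ), h3 π hπ⟩,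
      nofun, stab_one h1 h2 h3, fun _ => h4, nofun⟩
  · obtain ⟨z2, z3, h1, h2, h3⟩ := flag_b hu
    exact ⟨fl u z2 z3, fl_mono h1 h2, rfl, rfl, fun π hπ => ⟨stab h1 h2 (h3 π hπ), h3 π hπ⟩,
      nofun, stab_one h1 h2 h3, nofun, fun _ => ⟨le_rfl, ru1 hu e01_e01 le_rfl⟩⟩
  · obtain ⟨z1, z2, z3, h1, h2, h3⟩ := flag_c a
    exact ⟨fl z1 z2 z3, fl_mono h1 h2, rfl, rfl, fun π hπ => ⟨stab h1 h2 (h3 π hπ), h3 π hπ⟩,
      nofun, stab_one h1 h2 h3, nofun, nofun⟩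
  · have h := fun (e : E →ₗ[Kf] E) => stab le_rfl le_top (ax_i e)
    refine ⟨fl ⊥ ⊥ ⊤, fl_mono le_rfl le_top, rfl, rfl, fun π _ => ⟨h _, ?_⟩, fun _ _ => h _, h _,
      nofun, nofun⟩
    cases π <;> exact ax_i _

end Pool.Agent.P.MP_4a7a83_al.MF
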