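import Pool.Agent.P.MP_4a7a83_al.F.MDefs

/-!
The gadget: a vector space with three decompositions, and actions of its algebra.
Coordinates `(τ, x, z, w)` stand for `τ t + ∑ xᵢ xᵢ + ∑ zᵢ zᵢ + ∑ wᵢ wᵢ`.
-/

namespace Pool.Agent.P.MP_4a7a83_al.MF

set_option linter.unusedSectionVars false
set_option maxSynthPendingDepth 4

variable [Fld]

open LinearMap

abbrev U : Type := ℕ →₀ Kf

abbrev Gam : Type := Kf × U × U × U

abbrev Alg : Type := Module.End Kf Gam × Kf × Kf

/-- Right shift. -/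
noncomputable def sh : U →ₗ[Kf] U := Finsupp.lmapDomain Kf Kf Nat.succ

/-- Left shift. -/
noncomputable def ls : U →ₗ[Kf] U := Finsupp.lcomapDomain Nat.succ Nat.succ_injective

noncomputable def dl : Kf →ₗ[Kf] U := Finsupp.lsingle 0

noncomputable def ep : U →ₗ[Kf] Kf := Finsupp.lapply 0

noncomputable def cT : Gam →ₗ[Kf] Kf := fst Kf _ _
noncomputable def cX : Gam →ₗ[Kf] U := fst Kf _ _ ∘ₗ snd Kf _ _
noncomputable def cZ : Gam →ₗ[Kf] U := fst Kf _ _ ∘ₗ snd Kf _ _ ∘ₗ snd Kf _ _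
noncomputable def cW : Gam →ₗ[Kf] U := snd Kf _ _ ∘ₗ snd Kf _ _ ∘ₗ snd Kf _ _

/-- The endomorphism with given coordinates. -/
noncomputable def mk4 (τ : Gam →ₗ[Kf] Kf) (x z w : Gam →ₗ[Kf] U) : Module.End Kf Gam :=
  τ.prod (x.prod (z.prod w))

/-- The vector `m = t + w₀`. -/
noncomputable def mv : Gam := (1, 0, 0, dl 1)

/-- The coordinate of `m`. -/
noncomputable def mf : Gam →ₗ[Kf] Kf := ep ∘ₗ cW

noncomputable def E01 : Module.End Kf Gam := mf.smulRight mv

noncomputable def E11 : Module.End Kf Gam :=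
  mk4 (cT - mf) (cX - ls ∘ₗ cW) ((LinearMap.id - sh) ∘ₗ (cX - ls ∘ₗ cW)) 0

noncomputable def F1 : Module.End Kf Gam := mk4 cT cX 0 0

noncomputable def G1 : Module.End Kf Gam :=
  mk4 cT (cX - cZ - cW + dl ∘ₗ cT) ((LinearMap.id - sh) ∘ₗ (cX - cZ - cW + dl ∘ₗ cT))
    (dl ∘ₗ cT - (LinearMap.id - sh) ∘ₗ (cX - cZ - cW + dl ∘ₗ cT))

noncomputable def e01 : Alg := (E01, 0, 0)
noncomputable def e11 : Alg := (E11, 1, 0)
noncomputable def e00 : Alg := (1 - E01 - E11, 0, 1)
noncomputable def f1 : Alg := (F1, 1, 0)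
noncomputable def f2 : Alg := (1 - F1, 0, 1)
noncomputable def g1 : Alg := (G1, 1, 0)
noncomputable def g2 : Alg := (1 - G1, 0, 1)
noncomputable def n1 : Alg := (0, 1, 0)
noncomputable def n2 : Alg := (0, 0, 1)

/-- Index set of a basis of the gadget. -/
abbrev GI : Type := Module.Basis.ofVectorSpaceIndex Kf Gam

noncomputable def gb : Module.Basis GI Kf Gam := Module.Basis.ofVectorSpace Kf Gam

noncomputable def up (l : GI) : Alg := (mf.smulRight (gb l), 0, 0)

noncomputable def dn (l : GI) : Alg := ((gb.coord l).smulRight mv, 0, 0)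

/-- Finite rank approximations of the identity. -/
noncomputable def apx (S : Finset GI) : Alg := n1 + n2 + ∑ l ∈ S, up l * e01 * dn l

/-- A smooth, not necessarily unital action of the gadget algebra. -/
structure Act (E : Type) [AddCommGroup E] [Module Kf E] where
  φ : Alg →ₗ[Kf] Module.End Kf E
  mul : ∀ α β, φ (α * β) = φ α * φ β
  smooth : ∀ v, ∀ᶠ S in Filter.atTop, φ (apx S) v = φ 1 v

/-- The pieces of the three decompositions. -/
inductive Pc
  | v00 | v01 | v11 | w1 | w2 | u1 | u2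

namespace Pc

noncomputable def idem : Pc → Alg
  | v00 => e00 | v01 => e01 | v11 => e11 | w1 => f1 | w2 => f2 | u1 => g1 | u2 => g2

def col : Pc → N5 → Bool
  | v00 => N5.p2 | v01 => N5.p01 | v11 => N5.p1 | w1 => N5.p1 | w2 => N5.p2
  | u1 => N5.p1 | u2 => N5.p2

/-- The label that destroys the decomposition containing the piece. -/
def out : Pc → N5
  | v00 => N5.c | v01 => N5.c | v11 => N5.c | w1 => N5.b | w2 => N5.b
  | u1 => N5.a | u2 => N5.a

end Pc

end Pool.Agent.P.MP_4a7a83_al.MF
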