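import Pool.Agent.P.MP_4a7a83_al.F.GDefs

/-!
Identities in the gadget algebra.
-/

namespace Pool.Agent.P.MP_4a7a83_al.MF

set_option linter.unusedSectionVars false
set_option maxSynthPendingDepth 4

variable [Fld]

theorem ls_sh (u : U) : ls (sh u) = u := by
  ext n; simp [ls, sh, Finsupp.mapDomain_apply Nat.succ_injective]

theorem ep_sh (u : U) : ep (sh u) = 0 := by
  simp [ep, sh, Finsupp.mapDomain_of_notMem_range]

theorem ls_dl (r : Kf) : ls (dl r) = 0 := by
  ext n; simp [ls, dl]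

theorem ep_dl (r : Kf) : ep (dl r) = r := by
  simp [ep, dl]

theorem sh_ls (u : U) : sh (ls u) = u - dl (ep u) := by
  ext n
  cases n with
  | zero => simp [sh, ls, dl, ep, Finsupp.mapDomain_of_notMem_range]
  | succ n =>
    have := Finsupp.mapDomain_apply Nat.succ_injective (ls u) n
    simpa [sh, ls, dl, ep] using this

theorem mf_mv : mf mv = 1 := by
  simp [mf, mv, cW, ep_dl]

theorem e_sum : e00 + e01 + e11 = 1 := by
  ext1
  · simp only [e00, e01, e11, Prod.fst_add, Prod.fst_one]; abel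
  · simp [e00, e01, e11]

theorem f_sum : f1 + f2 = 1 := by
  ext1
  · simp [f1, f2]
  · simp [f1, f2, Prod.ext_iff]

theorem g_sum : g1 + g2 = 1 := by
  ext1
  · simp [g1, g2]
  · simp [g1, g2, Prod.ext_iff]

theorem alg_ext {α β : Alg} (h : ∀ τ x z w, α.1 (τ, x, z, w) = β.1 (τ, x, z, w))
    (h2 : α.2 = β.2) : α = β := by
  refine Prod.ext (LinearMap.ext fun v => ?_) h2
  obtain ⟨τ, x, z, w⟩ := v
  exact h τ x z w

theorem E01_apply (τ : Kf) (x z w : U) : E01 (τ, x, z, w) = (ep w, 0, 0, dl (ep w)) := by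
  simp [E01, mf, mv, cW, ← map_smul]

theorem E11_apply (τ : Kf) (x z w : U) :
    E11 (τ, x, z, w) = (τ - ep w, x - ls w, (x - ls w) - sh (x - ls w), 0) := by
  simp [E11, mk4, mf, cT, cX, cW]

theorem F1_apply (τ : Kf) (x z w : U) : F1 (τ, x, z, w) = (τ, x, 0, 0) := by
  simp [F1, mk4, cT, cX]

theorem G1_apply (τ : Kf) (x z w : U) :
    G1 (τ, x, z, w) = (τ, x - z - w + dl τ, (x - z - w + dl τ) - sh (x - z - w + dl τ),
      dl τ - ((x - z - w + dl τ) - sh (x - z - w + dl τ))) := by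
  simp [G1, mk4, cT, cX, cZ, cW]

theorem e01_e01 : e01 * e01 = e01 := by
  refine alg_ext (fun τ x z w => ?_) (by simp [e01])
  simp [e01, E01_apply, ep_dl]

theorem e11_e11 : e11 * e11 = e11 := by
  refine alg_ext (fun τ x z w => ?_) (by simp [e11])
  simp [e11, E11_apply]

theorem e01_e11 : e01 * e11 = 0 := by
  refine alg_ext (fun τ x z w => ?_) (by simp [e01, e11])
  simp [e01, e11, E11_apply, E01_apply]

theorem e11_e01 : e11 * e01 = 0 := by
  refine alg_ext (fun τ x z w => ?_) (by simp [e01, e11])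
  simp [e01, e11, E11_apply, E01_apply, ep_dl, ls_dl]

theorem f1_f1 : f1 * f1 = f1 := by
  refine alg_ext (fun τ x z w => ?_) (by simp [f1])
  simp [f1, F1_apply]

theorem g1_g1 : g1 * g1 = g1 := by
  refine alg_ext (fun τ x z w => ?_) (by simp [g1])
  simp [g1, G1_apply]
  constructor <;> abel

theorem e00_eq : e00 = 1 - e01 - e11 := by
  rw [← e_sum]; abel

theorem f2_eq : f2 = 1 - f1 := by
  rw [← f_sum]; abel

theorem g2_eq : g2 = 1 - g1 := by
  rw [← g_sum]; abel

theorem e01_f1 : e01 * f1 = 0 := by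
  refine alg_ext (fun τ x z w => ?_) (by simp [e01, f1])
  simp [e01, f1, F1_apply, E01_apply]

theorem e00_f1_e01 : e00 * f1 * e01 = 0 := by
  refine alg_ext (fun τ x z w => ?_) (by simp [e01, f1, e00])
  simp [e00, e01, f1, F1_apply, E01_apply, E11_apply]

theorem f1_e00_f1 : f1 * e00 * f1 = 0 := by
  refine alg_ext (fun τ x z w => ?_) (by simp [f1, e00])
  simp [e00, f1, F1_apply, E01_apply, E11_apply]

theorem e11_f2_e11 : e11 * f2 * e11 = 0 := by
  refine alg_ext (fun τ x z w => ?_) (by simp [f2, e11])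
  simp [e11, f2, F1_apply, E11_apply]

theorem g2_e01 : g2 * e01 = 0 := by
  refine alg_ext (fun τ x z w => ?_) (by simp [g2, e01])
  simp [e01, g2, G1_apply, E01_apply]

theorem g1_e00_g1 : g1 * e00 * g1 = 0 := by
  refine alg_ext (fun τ x z w => ?_) (by simp [g1, e00])
  simp [e00, g1, G1_apply, E01_apply, E11_apply, ep_dl, ls_dl, ls_sh, ep_sh, sh_ls]
  refine ⟨?_, ?_, ?_⟩ <;> abel

theorem e11_g2_e11 : e11 * g2 * e11 = 0 := by
  refine alg_ext (fun τ x z w => ?_) (by simp [g2, e11])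
  simp [e11, g2, G1_apply, E11_apply, ep_dl, ls_dl, ls_sh, ep_sh, sh_ls]

theorem e01_g2_e11 : e01 * g2 * e11 = 0 := by
  refine alg_ext (fun τ x z w => ?_) (by simp [g2, e11, e01])
  simp [e11, e01, g2, G1_apply, E11_apply, E01_apply, ep_dl, ep_sh, sh_ls]

theorem f1_g2_f1_g2 : f1 * g2 * f1 * g2 = 0 := by
  refine alg_ext (fun τ x z w => ?_) (by simp [g2, f1])
  simp [f1, g2, G1_apply, F1_apply]

theorem g1_f2_g1_f2 : g1 * f2 * g1 * f2 = 0 := by
  refine alg_ext (fun τ x z w => ?_) (by simp [g1, f2])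
  simp [f2, g1, G1_apply, F1_apply]

theorem e00_e00 : e00 * e00 = e00 := by
  rw [e00_eq]; simp [mul_sub, sub_mul, e01_e01, e11_e11, e01_e11, e11_e01]

theorem e00_e01 : e00 * e01 = 0 := by
  rw [e00_eq]; simp [sub_mul, e01_e01, e11_e01]

theorem e00_e11 : e00 * e11 = 0 := by
  rw [e00_eq]; simp [sub_mul, e11_e11, e01_e11]

theorem e01_e00 : e01 * e00 = 0 := by
  rw [e00_eq]; simp [mul_sub, e01_e01, e01_e11]

theorem e11_e00 : e11 * e00 = 0 := by
  rw [e00_eq]; simp [mul_sub, e11_e11, e11_e01]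

theorem f2_f2 : f2 * f2 = f2 := by
  rw [f2_eq]; simp [mul_sub, sub_mul, f1_f1]

theorem f1_f2 : f1 * f2 = 0 := by
  rw [f2_eq]; simp [mul_sub, f1_f1]

theorem f2_f1 : f2 * f1 = 0 := by
  rw [f2_eq]; simp [sub_mul, f1_f1]

theorem g2_g2 : g2 * g2 = g2 := by
  rw [g2_eq]; simp [mul_sub, sub_mul, g1_g1]

theorem g1_g2 : g1 * g2 = 0 := by
  rw [g2_eq]; simp [mul_sub, g1_g1]

theorem g2_g1 : g2 * g1 = 0 := by
  rw [g2_eq]; simp [sub_mul, g1_g1]

theorem Pc.idem_mul_self (π : Pc) : π.idem * π.idem = π.idem := by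
  cases π <;> simp [Pc.idem, e00_e00, e01_e01, e11_e11, f1_f1, f2_f2, g1_g1, g2_g2]

theorem n1_mul (α : Alg) : n1 * α = α.2.1 • n1 := by
  ext <;> simp [n1]

theorem mul_n1 (α : Alg) : α * n1 = α.2.1 • n1 := by
  ext <;> simp [n1]

theorem n2_mul (α : Alg) : n2 * α = α.2.2 • n2 := by
  ext <;> simp [n2]

theorem mul_n2 (α : Alg) : α * n2 = α.2.2 • n2 := by
  ext <;> simp [n2]

theorem n1_n1 : n1 * n1 = n1 := by rw [n1_mul]; simp [n1]

theorem n2_n2 : n2 * n2 = n2 := by rw [n2_mul]; simp [n2]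

theorem n1_e11 : n1 * e11 = n1 := by rw [n1_mul]; simp [e11]

theorem n2_e00 : n2 * e00 = n2 := by rw [n2_mul]; simp [e00]

theorem e01_mul_e01 (α : Alg) : e01 * α * e01 = mf (α.1 mv) • e01 := by
  refine Prod.ext (LinearMap.ext fun v => ?_) (by ext <;> simp [e01])
  simp [e01, E01, smul_smul, mul_comm]

theorem apx_fst (S : Finset GI) (v : Gam) :
    (apx S).1 v = ∑ l ∈ S, gb.repr v l • gb l := by
  simp [apx, n1, n2, Prod.fst_sum, up, dn, e01, E01, mf_mv]

theorem apx_snd (S : Finset GI) : (apx S).2 = 1 := by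
  simp [apx, n1, n2, Prod.snd_sum, up, dn, e01, Prod.ext_iff]

theorem apx_eventually (v : Gam) : ∀ᶠ S in Filter.atTop, (apx S).1 v = v := by
  filter_upwards [Filter.eventually_ge_atTop (gb.repr v).support] with S hS
  rw [apx_fst]
  conv_rhs => rw [← gb.linearCombination_repr v, Finsupp.linearCombination_apply,
    Finsupp.sum_of_support_subset _ hS _ (by simp)]

end Pool.Agent.P.MP_4a7a83_al.MF
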