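import Pool.Agent.P.MP_4a7a83_al.F.Basic

/-!
Interpreting one more link whose support meets `a`, `b` or `c`.
-/

namespace Pool.Agent.P.MP_4a7a83_al.MF

set_option linter.unusedSectionVars false
set_option maxSynthPendingDepth 4

variable [Fld]

open Classical N5

namespace StepB

section Abstract

variable {V : Type} [AddCommGroup V] [Module Kf V] {σ0 σ1 τ0 τ1 ρ R : Submodule Kf V}
  {e e' : V →ₗ[Kf] V} {c c' : Prop}

/-- The link axiom if `c` holds, triviality otherwise. -/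
def Gd (c : Prop) (e : V →ₗ[Kf] V) (σ0 σ1 τ0 τ1 R : Submodule Kf V) : Prop :=
  (c → LinkS e σ0 σ1 τ0 τ1 R) ∧ (¬ c → TrivS e σ0 τ0 R)

theorem Gd.add (h : Gd c e σ0 σ1 τ0 τ1 R) (h' : Gd c e' σ0 σ1 τ0 τ1 R) :
    Gd c (e + e') σ0 σ1 τ0 τ1 R :=
  ⟨fun hc => (h.1 hc).add (h'.1 hc), fun hc => (h.2 hc).add (h'.2 hc)⟩

theorem Gd.iff (h : Gd c e σ0 σ1 τ0 τ1 R) (hc : c ↔ c') : Gd c' e σ0 σ1 τ0 τ1 R :=
  ⟨fun k => h.1 (hc.2 k), fun k => h.2 fun k' => k (hc.1 k')⟩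

theorem Gd.transfer (h : Gd c e σ0 σ1 τ0 τ1 ρ) (he : e ∘ₗ e = e) (h1 : ρ ≤ R) (h2 : RLe e R ρ)
    (hτ : RLe e τ1 τ1) : Gd c e σ0 σ1 τ0 τ1 R := by
  refine ⟨fun hc => ?_, fun hc => ?_⟩
  · obtain ⟨a1, a2, a3, a4⟩ := h.1 hc
    exact ⟨a1.mono le_rfl h1, h2.trans_idem he a2, a3.mono le_rfl (sup_le_sup_right h1 _),
      (h2.inf hτ).trans_idem he a4⟩
  · obtain ⟨a1, a2⟩ := h.2 hc
    exact ⟨a1.mono le_rfl h1, h2.trans_idem he a2⟩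

/-- A part on which the link becomes trivial. -/
theorem triv_piece {P : V →ₗ[Kf] V} (h1 : RLe e (σ0 ⊔ τ0) R) (heP : e ∘ₗ P = P)
    (h2 : RLe P R (σ0 ⊔ τ0)) (hσ : RLe P σ0 σ0) (hτ : RLe P τ0 τ0) :
    RLe P R R ∧ TrivS P σ0 τ0 R :=
  ⟨heP ▸ h1.comp h2, heP ▸ h1.comp (hσ.sup hτ), h2⟩

theorem second_triv {e1 e2 P : V →ₗ[Kf] V} (he : e1 + e2 = e) (heP : e ∘ₗ P = P)
    (hPe : P ∘ₗ e = P) (h1 : TrivS e1 σ0 τ0 R) (h2 : TrivS e2 σ0 τ0 R) (hσ : RLe P σ0 σ0)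
    (hτ : RLe P τ0 τ0) : RLe P R R ∧ TrivS P σ0 τ0 R := by
  have h := he ▸ h1.add h2
  exact triv_piece h.1 heP (h.2.below hPe (hσ.sup hτ)) hσ hτ

theorem second_link {e1 e2 P1 P2 : V →ₗ[Kf] V} (he : e1 + e2 = e) (hP : P1 + P2 = e)
    (he2 : e2 ∘ₗ e2 = e2) (hP1 : P1 ∘ₗ e = P1) (hP2 : P2 ∘ₗ e = P2) (heP : e ∘ₗ P2 = P2)
    (hR : RLe e R R) (h1 : LinkS e1 σ0 σ1 τ0 τ1 R) (h2 : TrivS e2 σ0 τ0 R) (hσ : σ0 ≤ σ1)
    (hτ : τ0 ≤ τ1) (c1 : RLe e2 τ1 τ0) (c2 : RLe P2 σ1 σ0) (c3 : RLe P2 τ1 τ0)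
    (b1 : RLe P1 σ1 σ1) (b2 : RLe P1 τ0 τ0) (b3 : RLe P1 τ1 τ1) :
    (RLe P1 R R ∧ LinkS P1 σ0 σ1 τ0 τ1 R) ∧ RLe P2 R R ∧ TrivS P2 σ0 τ0 R := by
  have h := he ▸ h1.add (h2.linkS he2 hσ hτ c1)
  have h3 := triv_piece h.1 heP (hP2 ▸ (c2.sup c3).comp h.2.1) (c2.mono hσ le_rfl)
    (c3.mono hτ le_rfl)
  have h4 : RLe P1 R R := by
    rw [eq_sub_of_add_eq hP]
    exact hR.sub h3.1
  exact ⟨⟨h4, h.below hP1 b1 b2 b3 h4⟩, h3⟩

end Abstract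

variable {X E : Type} [AddCommGroup E] [Module Kf E] {A : Tm X → Prop} {q : X → N5}
  {Y : List X} {p : X → N5} {s0 s1 t0 t1 : Tm X} {a : Act E} {M : Str X E}

theorem cond_plain (hA : ∀ t, A t → Cond A t) {φ ψ : X → Bool}
    (h : A (.lk Y p s0 s1 t0 t1) ∧ Att (fun x => ofB (φ x)) (.lk Y p s0 s1 t0 t1))
    (hne : ∃ x ∈ (Tm.lk Y p s0 s1 t0 t1).supp, φ x ≠ ψ x) :
    ¬ Att (fun x => ofB (ψ x)) (.lk Y p s0 s1 t0 t1) ∧ Indep s0 s1 t0 t1 ∧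
      PValOn A ψ (Tm.lk Y p s0 s1 t0 t1).args s1 s0 ∧
      PValOn A ψ (Tm.lk Y p s0 s1 t0 t1).args t1 t0 := by
  obtain ⟨x, hx, hne⟩ := hne
  have h1 : ¬ Att (fun x => ofB (ψ x)) (.lk Y p s0 s1 t0 t1) :=
    fun h' => hne (ofB_inj ((h.2 x hx).symm.trans (h' x hx)))
  obtain ⟨h2, ⟨_, _, _, h3⟩ | ⟨⟨⟨y, hy, h3⟩, _⟩, _⟩⟩ := hA _ h.1
  · exact ⟨h1, h2, h3 ψ h1⟩
  · exact absurd ((h.2 y hy).symm.trans h3) (ofB_ne_a _)

/-- The axioms of the new link on the part cut out by `α`, of colour `φ`. -/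
def G (A : Tm X → Prop) (Y : List X) (p : X → N5) (s0 s1 t0 t1 : Tm X) (a : Act E) (M : Str X E)
    (φ : X → Bool) (α : Alg) (R : Submodule Kf (Amb X E)) : Prop :=
  Gd (A (.lk Y p s0 s1 t0 t1) ∧ Att (fun x => ofB (φ x)) (.lk Y p s0 s1 t0 t1))
    (hat X (a.φ α)) (M.ev s0) (M.ev s1) (M.ev t0) (M.ev t1) R

/-- What is valid at the colour `φ` holds on the part cut out by `α`. -/
def Cl (A : Tm X → Prop) (S : Finset (Tm X)) (a : Act E) (M : Str X E) (φ : X → Bool) (α : Alg) :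
    Prop := ∀ u w, PValOn A φ S u w → RLe (hat X (a.φ α)) (M.ev u) (M.ev w)

theorem G.add {φ ψ : X → Bool} {α β : Alg} {R : Submodule Kf (Amb X E)}
    (h : G A Y p s0 s1 t0 t1 a M φ α R) (h' : G A Y p s0 s1 t0 t1 a M ψ β R)
    (hc : ∀ x ∈ (Tm.lk Y p s0 s1 t0 t1).supp, ψ x = φ x) :
    G A Y p s0 s1 t0 t1 a M φ (α + β) R := by
  rw [G, a.hat_add]
  exact Gd.add h (Gd.iff h' (and_congr_right fun _ => att_congr fun x hx => by rw [hc x hx]))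

theorem cl_of {S : Finset (Tm X)} {φ ψ : X → Bool} {α : Alg} (h : PMem A ψ S M (a.φ α))
    (hc : ∀ t ∈ S, ∀ x ∈ t.supp, ψ x = φ x) : Cl A S a M φ α :=
  fun _ _ hv => hv E M _ (h.congr_col hc)

theorem Cl.add {S : Finset (Tm X)} {φ : X → Bool} {α β : Alg} (h : Cl A S a M φ α)
    (h' : Cl A S a M φ β) : Cl A S a M φ (α + β) := fun u w hv => by
  rw [a.hat_add]
  exact (h u w hv).add (h' u w hv)

theorem second_att (hA : ∀ t, A t → Cond A t) {φ ψ : X → Bool} {α1 α2 β1 β2 : Alg}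
    {R : Submodule Kf (Amb X E)} (hne : ∃ x ∈ (Tm.lk Y p s0 s1 t0 t1).supp, φ x ≠ ψ x)
    (hα : α1 + α2 = 1) (hβ : β1 + β2 = 1) (h2 : α2 * α2 = α2) (hR : RLe (hat X (a.φ 1)) R R)
    (g1 : G A Y p s0 s1 t0 t1 a M φ α1 R) (g2 : G A Y p s0 s1 t0 t1 a M ψ α2 R)
    (c2 : Cl A (Tm.lk Y p s0 s1 t0 t1).args a M ψ α2)
    (m1 : PMem A φ (Tm.lk Y p s0 s1 t0 t1).args M (a.φ β1))
    (m2 : PMem A ψ (Tm.lk Y p s0 s1 t0 t1).args M (a.φ β2))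
    (h : A (.lk Y p s0 s1 t0 t1) ∧ Att (fun x => ofB (φ x)) (.lk Y p s0 s1 t0 t1)) :
    (RLe (hat X (a.φ β1)) R R ∧ G A Y p s0 s1 t0 t1 a M φ β1 R) ∧
      RLe (hat X (a.φ β2)) R R ∧ G A Y p s0 s1 t0 t1 a M ψ β2 R := by
  obtain ⟨k1, k2, k3, k4⟩ := cond_plain hA h hne
  have st : ∀ u ∈ (Tm.lk Y p s0 s1 t0 t1).kids, RLe (hat X (a.φ β1)) (M.ev u) (M.ev u) :=
    fun u hu => m1.ev_stab (closed_args _) (Tm.kids_mem_args hu)
  obtain ⟨⟨r1, r2⟩, r3, r4⟩ := second_link (e := hat X (a.φ 1)) (P1 := hat X (a.φ β1))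
    (P2 := hat X (a.φ β2)) (by rw [← a.hat_add, hα]) (by rw [← a.hat_add, hβ])
    (by rw [a.hat_comp, h2]) (by rw [a.hat_comp, mul_one]) (by rw [a.hat_comp, mul_one])
    (by rw [a.hat_comp, one_mul]) hR (g1.1 h) (g2.2 fun k => k1 k.2) (k2.1 E M) (k2.2.1 E M)
    (c2 _ _ k4) (k3 E M _ m2) (k4 E M _ m2) (st _ (by simp [Tm.kids])) (st _ (by simp [Tm.kids]))
    (st _ (by simp [Tm.kids]))
  exact ⟨⟨r1, fun _ => r2, fun k => absurd h k⟩, r3, fun k => absurd k.2 k1, fun _ => r4⟩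

/-- The pieces of a second decomposition. -/
theorem second (hA : ∀ t, A t → Cond A t) {φ ψ : X → Bool} {α1 α2 β1 β2 : Alg}
    {R : Submodule Kf (Amb X E)} (hne : ∃ x ∈ (Tm.lk Y p s0 s1 t0 t1).supp, φ x ≠ ψ x)
    (hα : α1 + α2 = 1) (hβ : β1 + β2 = 1) (h1 : α1 * α1 = α1) (h2 : α2 * α2 = α2)
    (hR : RLe (hat X (a.φ 1)) R R)
    (g1 : G A Y p s0 s1 t0 t1 a M φ α1 R) (g2 : G A Y p s0 s1 t0 t1 a M ψ α2 R)
    (c1 : Cl A (Tm.lk Y p s0 s1 t0 t1).args a M φ α1)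
    (c2 : Cl A (Tm.lk Y p s0 s1 t0 t1).args a M ψ α2)
    (m1 : PMem A φ (Tm.lk Y p s0 s1 t0 t1).args M (a.φ β1))
    (m2 : PMem A ψ (Tm.lk Y p s0 s1 t0 t1).args M (a.φ β2)) :
    (RLe (hat X (a.φ β1)) R R ∧ G A Y p s0 s1 t0 t1 a M φ β1 R) ∧
      RLe (hat X (a.φ β2)) R R ∧ G A Y p s0 s1 t0 t1 a M ψ β2 R := by
  by_cases h : A (.lk Y p s0 s1 t0 t1) ∧ Att (fun x => ofB (φ x)) (.lk Y p s0 s1 t0 t1)
  · exact second_att hA hne hα hβ h2 hR g1 g2 c2 m1 m2 h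
  by_cases h' : A (.lk Y p s0 s1 t0 t1) ∧ Att (fun x => ofB (ψ x)) (.lk Y p s0 s1 t0 t1)
  · obtain ⟨x, hx, hne⟩ := hne
    exact (second_att hA ⟨x, hx, hne.symm⟩ ((add_comm _ _).trans hα) ((add_comm _ _).trans hβ) h1
      hR g2 g1 c1 m2 m1 h').symm
  have key : ∀ {χ : X → Bool} {β : Alg}, PMem A χ (Tm.lk Y p s0 s1 t0 t1).args M (a.φ β) →
      RLe (hat X (a.φ β)) R R ∧ TrivS (hat X (a.φ β)) (M.ev s0) (M.ev t0) R := fun m =>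
    second_triv (e := hat X (a.φ 1)) (by rw [← a.hat_add, hα]) (by rw [a.hat_comp, one_mul])
      (by rw [a.hat_comp, mul_one]) (g1.2 h) (g2.2 h')
      (m.ev_stab (closed_args _) (Tm.kids_mem_args (by simp [Tm.kids])))
      (m.ev_stab (closed_args _) (Tm.kids_mem_args (by simp [Tm.kids])))
  exact ⟨⟨(key m1).1, fun k => absurd k h, fun _ => (key m1).2⟩,
    (key m2).1, fun k => absurd k h', fun _ => (key m2).2⟩

theorem fine_orth (q : X → N5) (Z : Set X) (h0 : ¬ ∀ x ∈ Z, q x = o ∨ q x = i) :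
    ∀ f ∈ fine q Z, ∀ g ∈ fine q Z, f = g ∨ f.1 * g.1 = 0 := by
  intro f hf g hg
  rw [fine, if_neg h0] at hf hg
  split_ifs at hf hg <;> simp only [List.mem_cons, List.not_mem_nil, or_false] at hf hg
  · rcases hf with rfl | rfl | rfl <;> rcases hg with rfl | rfl | rfl <;>
      simp [e01_e11, e11_e01, e00_e01, e00_e11, e01_e00, e11_e00]
  · rcases hf with rfl | rfl <;> rcases hg with rfl | rfl <;> simp [f1_f2, f2_f1]
  · rcases hf with rfl | rfl <;> rcases hg with rfl | rfl <;> simp [g1_g2, g2_g1]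
  · exact Or.inl (hf.trans hg.symm)

theorem exists_sup (a : Act E) (L : List (Alg × (N5 → N5)))
    (hL : ∀ f ∈ L, ∀ g ∈ L, f = g ∨ f.1 * g.1 = 0)
    (ρ : Alg × (N5 → N5) → Submodule Kf (Amb X E))
    (hρ : ∀ f ∈ L, ∀ v ∈ ρ f, hat X (a.φ f.1) v = v) :
    ∃ R : Submodule Kf (Amb X E), RLe (hat X (a.φ 1)) R R ∧
      ∀ f ∈ L, ρ f ≤ R ∧ RLe (hat X (a.φ f.1)) R (ρ f) := by
  refine ⟨⨆ f ∈ L, ρ f, rle_iff_le_comap.2 (iSup₂_le fun f hf v hv => ?_), fun f hf =>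
    ⟨le_iSup₂_of_le f hf le_rfl, rle_iff_le_comap.2 (iSup₂_le fun g hg v hv => ?_)⟩⟩
  · rw [Submodule.mem_comap, ← hρ f hf v hv, a.hat_hat, one_mul, hρ f hf v hv]
    exact (le_iSup₂_of_le f hf le_rfl : ρ f ≤ ⨆ f ∈ L, ρ f) hv
  · rw [Submodule.mem_comap]
    rcases hL f hf g hg with rfl | h
    · rwa [hρ f hf v hv]
    · rw [← hρ g hg v hv, a.hat_hat, h, map_zero, hat_zero]
      exact zero_mem _

theorem assemble {S : Finset (Tm X)} (hS : Closed S) (hs : Tm.lk Y p s0 s1 t0 t1 ∉ S)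
    (hk : (Tm.lk Y p s0 s1 t0 t1).args ⊆ S)
    (h0 : ¬ ∀ x ∈ (Tm.lk Y p s0 s1 t0 t1).supp, q x = o ∨ q x = i) (hM : Mem A q S a M)
    {R : Submodule Kf (Amb X E)}
    (h1 : ∀ π : Pc, (∀ x ∈ (Tm.lk Y p s0 s1 t0 t1).supp, q x ≠ π.out) →
      RLe (hat X (a.φ π.idem)) R R ∧ G A Y p s0 s1 t0 t1 a M (fun x => π.col (q x)) π.idem R)
    (h3 : RLe (hat X (a.φ 1)) R R)
    (h4 : Onto q (Tm.lk Y p s0 s1 t0 t1).supp → A (.lk Y p s0 s1 t0 t1) →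
      Att q (.lk Y p s0 s1 t0 t1) →
      LinkS (hat X (a.φ 1)) (M.ev s0) (M.ev s1) (M.ev t0) (M.ev t1) R) :
    Mem A q (insert (.lk Y p s0 s1 t0 t1) S) a (M.setLk (.lk Y p s0 s1 t0 t1) R) := by
  have hag := agree_setLk M hs R
  intro t ht
  rcases Finset.mem_insert.1 ht with rfl | ht
  swap
  · exact hM.congr hS hag t ht
  have ev : ∀ u ∈ (Tm.lk Y p s0 s1 t0 t1).kids,
      (M.setLk (.lk Y p s0 s1 t0 t1) R).ev u = M.ev u :=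
    fun u hu => (hag.ev hS (hk (Tm.kids_mem_args hu))).symm
  have e0 := ev s0 (by simp [Tm.kids])
  have e1 := ev s1 (by simp [Tm.kids])
  have e2 := ev t0 (by simp [Tm.kids])
  have e3 := ev t1 (by simp [Tm.kids])
  simp only [Ax, AtomHom, PlainAx, LinkAx, TrivAx, setLk_self, e0, e1, e2, e3]
  exact ⟨h1, fun h => absurd h h0, h3, h4⟩

end StepB

open StepB in
theorem step_link_mid {X E : Type} [AddCommGroup E] [Module Kf E] {A : Tm X → Prop}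
    (hA : ∀ t, A t → Cond A t) {q : X → N5} {S : Finset (Tm X)} (hS : Closed S)
    {Y : List X} {p : X → N5} {s0 s1 t0 t1 : Tm X}
    (hs : Tm.lk Y p s0 s1 t0 t1 ∉ S) (hk : (Tm.lk Y p s0 s1 t0 t1).args ⊆ S)
    (h0 : ¬ ∀ x ∈ (Tm.lk Y p s0 s1 t0 t1).supp, q x = o ∨ q x = i)
    {a : Act E} {M : Str X E} (hM : Mem A q S a M)
    (ρ : Alg × (N5 → N5) → Submodule Kf (Amb X E))
    (hρ : ∀ f ∈ fine q (Tm.lk Y p s0 s1 t0 t1).supp,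
      (∀ v ∈ ρ f, hat X (a.φ f.1) v = v) ∧
      (A (.lk Y p s0 s1 t0 t1) ∧ Att (fun x => f.2 (q x)) (.lk Y p s0 s1 t0 t1) →
        LinkS (hat X (a.φ f.1)) (M.ev s0) (M.ev s1) (M.ev t0) (M.ev t1) (ρ f)) ∧
      (¬ (A (.lk Y p s0 s1 t0 t1) ∧ Att (fun x => f.2 (q x)) (.lk Y p s0 s1 t0 t1)) →
        TrivS (hat X (a.φ f.1)) (M.ev s0) (M.ev t0) (ρ f))) :
    ∃ R : Submodule Kf (Amb X E),
      Mem A q (insert (.lk Y p s0 s1 t0 t1) S) a (M.setLk (.lk Y p s0 s1 t0 t1) R) ∧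
      ∀ f ∈ fine q (Tm.lk Y p s0 s1 t0 t1).supp,
        ρ f ≤ R ∧ RLe (hat X (a.φ f.1)) R (ρ f) := by
  obtain ⟨R, hR, hR'⟩ := exists_sup a _ (fine_orth q _ h0) ρ fun f hf => (hρ f hf).1
  refine ⟨R, assemble hS hs hk h0 hM ?_ hR ?_, hR'⟩
  swap
  · rintro ⟨⟨x, hx, hxa⟩, ⟨y, hy, hyb⟩, z, hz, hzc⟩ h1 h2
    have hf : ((1 : Alg), fun l : N5 => l) ∈ fine q (Tm.lk Y p s0 s1 t0 t1).supp := by
      rw [fine, if_neg h0, if_neg fun h => h z hz hzc, if_neg fun h => h y hy hyb,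
        if_neg fun h => h x hx hxa]
      exact List.mem_singleton_self _
    exact (Gd.transfer (hρ _ hf).2 (by rw [a.hat_comp, one_mul]) (hR' _ hf).1 (hR' _ hf).2
      (hM.ev_stab_one hS (hk (Tm.kids_mem_args (by simp [Tm.kids]))))).1 ⟨h1, h2⟩
  have pm : ∀ π : Pc, (∀ x ∈ (Tm.lk Y p s0 s1 t0 t1).supp, q x ≠ π.out) →
      PMem A (fun x => π.col (q x)) (Tm.lk Y p s0 s1 t0 t1).args M (a.φ π.idem) := fun π hπ =>
    (hM.mono hk).piece π fun t ht x hx => hπ x (Tm.supp_subset_of_mem_args ht hx)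
  have ch : ∀ π : Pc, (∀ x ∈ (Tm.lk Y p s0 s1 t0 t1).supp, q x ≠ π.out) →
      (π.idem, fun l => ofB (π.col l)) ∈ fine q (Tm.lk Y p s0 s1 t0 t1).supp →
      RLe (hat X (a.φ π.idem)) R R ∧
        G A Y p s0 s1 t0 t1 a M (fun x => π.col (q x)) π.idem R := fun π hπ hf =>
    ⟨(hR' _ hf).2.mono le_rfl (hR' _ hf).1, Gd.transfer (hρ _ hf).2
      (by rw [a.hat_comp, π.idem_mul_self]) (hR' _ hf).1 (hR' _ hf).2
      ((pm π hπ).ev_stab (closed_args _) (Tm.kids_mem_args (by simp [Tm.kids])))⟩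
  have cl : ∀ π : Pc, (∀ x ∈ (Tm.lk Y p s0 s1 t0 t1).supp, q x ≠ π.out) →
      Cl A (Tm.lk Y p s0 s1 t0 t1).args a M (fun x => π.col (q x)) π.idem :=
    fun π hπ => cl_of (pm π hπ) fun _ _ _ _ => rfl
  have hne : ∃ x ∈ (Tm.lk Y p s0 s1 t0 t1).supp, p1 (q x) ≠ p2 (q x) := by
    by_contra h
    refine h0 fun x hx => ?_
    have h1 : p1 (q x) = p2 (q x) := by
      by_contra h1
      exact h ⟨x, hx, h1⟩
    revert h1
    cases q x <;> simp [p1, p2]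
  by_cases hc : ∀ x ∈ (Tm.lk Y p s0 s1 t0 t1).supp, q x ≠ c
  · have hf : fine q (Tm.lk Y p s0 s1 t0 t1).supp = [(e01, fun l => ofB (p01 l)),
        (e11, fun l => ofB (p1 l)), (e00, fun l => ofB (p2 l))] := by
      rw [fine, if_neg h0, if_pos hc]
    rw [hf] at ch
    have c00 := ch .v00 hc (by simp [Pc.idem, Pc.col])
    have c01 := ch .v01 hc (by simp [Pc.idem, Pc.col])
    have c11 := ch .v11 hc (by simp [Pc.idem, Pc.col])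
    have w : (∀ x ∈ (Tm.lk Y p s0 s1 t0 t1).supp, q x ≠ b) → _ := fun hb => by
      have e : ∀ x ∈ (Tm.lk Y p s0 s1 t0 t1).supp, p01 (q x) = p2 (q x) := fun x hx => by
        have h1 := hb x hx
        have h2 := hc x hx
        revert h1 h2
        cases q x <;> simp [p01, p2]
      exact second (α1 := e11) (α2 := e00 + e01) hA hne (by rw [add_comm, e_sum]) f_sum e11_e11
        (by simp [mul_add, add_mul, e00_e00, e01_e01, e00_e01, e01_e00]) hR c11.2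
        (c00.2.add c01.2 e) (cl .v11 hc) ((cl .v00 hc).add (cl_of (pm .v01 hc)
          fun t ht x hx => e x (Tm.supp_subset_of_mem_args ht hx))) (pm .w1 hb) (pm .w2 hb)
    have u : (∀ x ∈ (Tm.lk Y p s0 s1 t0 t1).supp, q x ≠ N5.a) → _ := fun ha => by
      have e : ∀ x ∈ (Tm.lk Y p s0 s1 t0 t1).supp, p01 (q x) = p1 (q x) := fun x hx => by
        have h1 := ha x hx
        revert h1
        cases q x <;> simp [p01, p1]
      exact second (α1 := e11 + e01) (α2 := e00) hA hne (by rw [← e_sum]; abel) g_sum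
        (by simp [mul_add, add_mul, e11_e11, e01_e01, e11_e01, e01_e11]) e00_e00 hR
        (c11.2.add c01.2 e) c00.2 ((cl .v11 hc).add (cl_of (pm .v01 hc)
          fun t ht x hx => e x (Tm.supp_subset_of_mem_args ht hx))) (cl .v00 hc)
          (pm .u1 ha) (pm .u2 ha)
    intro π hπ
    cases π
    exacts [c00, c01, c11, (w hπ).1, (w hπ).2, (u hπ).1, (u hπ).2]
  by_cases hb : ∀ x ∈ (Tm.lk Y p s0 s1 t0 t1).supp, q x ≠ b
  · have hf : fine q (Tm.lk Y p s0 s1 t0 t1).supp =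
        [(f1, fun l => ofB (p1 l)), (f2, fun l => ofB (p2 l))] := by
      rw [fine, if_neg h0, if_neg hc, if_pos hb]
    rw [hf] at ch
    have c1 := ch .w1 hb (by simp [Pc.idem, Pc.col])
    have c2 := ch .w2 hb (by simp [Pc.idem, Pc.col])
    have u := fun ha : ∀ x ∈ (Tm.lk Y p s0 s1 t0 t1).supp, q x ≠ N5.a =>
      second hA hne f_sum g_sum f1_f1 f2_f2 hR c1.2 c2.2 (cl .w1 hb) (cl .w2 hb) (pm .u1 ha)
        (pm .u2 ha)
    intro π hπ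
    cases π
    exacts [absurd hπ hc, absurd hπ hc, absurd hπ hc, c1, c2, (u hπ).1, (u hπ).2]
  have hf : (∀ x ∈ (Tm.lk Y p s0 s1 t0 t1).supp, q x ≠ N5.a) →
      fine q (Tm.lk Y p s0 s1 t0 t1).supp =
        [(g1, fun l => ofB (p1 l)), (g2, fun l => ofB (p2 l))] := fun ha => by
    rw [fine, if_neg h0, if_neg hc, if_neg hb, if_pos ha]
  intro π hπ
  cases π
  · exact absurd hπ hc
  · exact absurd hπ hc
  · exact absurd hπ hc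
  · exact absurd hπ hb
  · exact absurd hπ hb
  · exact ch .u1 hπ (by rw [hf hπ]; simp [Pc.idem, Pc.col])
  · exact ch .u2 hπ (by rw [hf hπ]; simp [Pc.idem, Pc.col])

end Pool.Agent.P.MP_4a7a83_al.MF
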