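import Pool.Agent.P.MP_4a7a83_al.F.StepA
import Pool.Agent.P.MP_4a7a83_al.F.StepB

/-!
Interpreting one more link.
-/

namespace Pool.Agent.P.MP_4a7a83_al.MF

set_option linter.unusedSectionVars false
set_option maxSynthPendingDepth 4

variable [Fld]

open Classical N5

theorem step_link {X E : Type} [AddCommGroup E] [Module Kf E] {A : Tm X → Prop}
    (hA : ∀ t, A t → Cond A t) {q : X → N5} {S : Finset (Tm X)} (hS : Closed S)
    {Y : List X} {p : X → N5} {s0 s1 t0 t1 : Tm X}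
    (hs : Tm.lk Y p s0 s1 t0 t1 ∉ S) (hk : (Tm.lk Y p s0 s1 t0 t1).args ⊆ S)
    {a : Act E} {M : Str X E} (hM : Mem A q S a M)
    (ρ : Alg × (N5 → N5) → Submodule Kf (Amb X E))
    (hρ : ∀ f ∈ fine q (Tm.lk Y p s0 s1 t0 t1).supp,
      (∀ v ∈ ρ f, hat X (a.φ f.1) v = v) ∧
      (A (.lk Y p s0 s1 t0 t1) ∧ Att (fun x => f.2 (q x)) (.lk Y p s0 s1 t0 t1) →
        LinkS (hat X (a.φ f.1)) (M.ev s0) (M.ev s1) (M.ev t0) (M.ev t1) (ρ f)) ∧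
      (¬ (A (.lk Y p s0 s1 t0 t1) ∧ Att (fun x => f.2 (q x)) (.lk Y p s0 s1 t0 t1)) →
        TrivS (hat X (a.φ f.1)) (M.ev s0) (M.ev t0) (ρ f))) :
    ∃ R : Submodule Kf (Amb X E),
      Mem A q (insert (.lk Y p s0 s1 t0 t1) S) a (M.setLk (.lk Y p s0 s1 t0 t1) R) ∧
      ∀ f ∈ fine q (Tm.lk Y p s0 s1 t0 t1).supp,
        ρ f ≤ R ∧ RLe (hat X (a.φ f.1)) R (ρ f) := by
  by_cases h0 : ∀ x ∈ (Tm.lk Y p s0 s1 t0 t1).supp, q x = o ∨ q x = i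
  · exact step_link_two hA hS hs hk h0 hM ρ hρ
  · exact step_link_mid hA hS hs hk h0 hM ρ hρ

end Pool.Agent.P.MP_4a7a83_al.MF
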