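import Pool.Agent.P.MP_4a7a83_al.F.Model
import Pool.Agent.P.MP_4a7a83_al.F.Val
import Pool.Agent.P.MP_4a7a83_al.F.Ind
import Pool.Agent.P.MP_4a7a83_al.F.Fix
import Pool.Agent.P.MP_4a7a83_al.SideB

/-!
The term lattice lies in every variety that contains the lattices of subspaces.
-/

namespace Pool.Agent.P.MP_4a7a83_al.MF

open Classical

variable [Fld]

theorem modelSide (X : Type) :
    ∃ (I : KS.Iface X) (π : Tm X → I.Tm), Function.Surjective π ∧
      (∀ s t, π (.inf s t) = I.inf (π s) (π t)) ∧ (∀ s t, π (.sup s t) = I.sup (π s) (π t)) ∧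
      ∀ s t, ULe s t → ∀ q, I.le q (π s) (π t) := by
  obtain ⟨A, hA⟩ := exists_fix X
  exact iface_of_sem (sem_val hA (fun S hS => (se_ge_all (fun t => (hA t).1) S hS).1)
    fun S hS => (se_ge_all (fun t => (hA t).1) S hS).2)

/-- A structure together with its underlying space. -/
structure BStr (X : Type) where
  E : Type
  [grp : AddCommGroup E]
  [mod : Module Kf E]
  M : Str X E

instance {X : Type} (b : BStr X) : AddCommGroup b.E := b.grp

instance {X : Type} (b : BStr X) : Module Kf b.E := b.mod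

theorem exists_sep (X : Type) : ∃ (I : Type) (b : I → BStr X),
    ∀ s t : Tm X, (∀ i, (b i).M.ev s ≤ (b i).M.ev t) → ULe s t := by
  have h : ∀ p : {p : Tm X × Tm X // ¬ ULe p.1 p.2}, ∃ b : BStr X,
      ¬ b.M.ev p.1.1 ≤ b.M.ev p.1.2 := by
    rintro ⟨⟨s, t⟩, hp⟩
    by_contra hc
    exact hp fun E _ _ M => not_not.1 fun k => hc ⟨⟨E, M⟩, k⟩
  choose b hb using h
  exact ⟨_, b, fun s t e => not_not.1 fun k => hb ⟨(s, t), k⟩ (e _)⟩

variable {V : (α : Type) → [Lattice α] → Prop}
  (hH : ∀ (A B : Type) [Lattice A] [Lattice B] (f : LatticeHom A B),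
    Function.Surjective f → V A → V B)
  (hS : ∀ (A B : Type) [Lattice A] [Lattice B] (f : LatticeHom A B),
    Function.Injective f → V B → V A)
  (hP : ∀ (I : Type) (A : I → Type) [∀ i, Lattice (A i)], (∀ i, V (A i)) → V (∀ i, A i))
  (hV : ∀ (E : Type) [AddCommGroup E] [Module Kf E], V (Submodule Kf E))

include hH hS hP hV in
theorem term_mem {X : Type} (I : KS.Iface X) (π : Tm X → I.Tm) (h1 : Function.Surjective π)
    (h2 : ∀ s t, π (.inf s t) = I.inf (π s) (π t)) (h3 : ∀ s t, π (.sup s t) = I.sup (π s) (π t))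
    (h4 : ∀ s t, ULe s t → ∀ q, I.le q (π s) (π t)) : V I.B := by
  obtain ⟨J, b, hb⟩ := exists_sep X
  let ev : Tm X → ∀ j : J, Submodule Kf (Amb X (b j).E) := fun t j => (b j).M.ev t
  let S : Sublattice (∀ j : J, Submodule Kf (Amb X (b j).E)) :=
    { carrier := Set.range ev
      supClosed' := by
        rintro _ ⟨s, rfl⟩ _ ⟨t, rfl⟩
        exact ⟨.sup s t, rfl⟩
      infClosed' := by
        rintro _ ⟨s, rfl⟩ _ ⟨t, rfl⟩
        exact ⟨.inf s t, rfl⟩ }
  have key : ∀ s t, ev s = ev t → I.cls (π s) = I.cls (π t) := fun s t e =>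
    Quotient.sound ⟨h4 s t (hb s t fun j => (congrFun e j).le),
      h4 t s (hb t s fun j => (congrFun e j).ge)⟩
  have hc : ∀ a : S, ∃ t, ev t = a.1 := fun a => a.2
  choose g hg using hc
  let f : LatticeHom S I.B :=
    { toFun := fun a => I.cls (π (g a))
      map_sup' := fun a c => by
        rw [KS.Iface.mk_sup, ← h3]
        exact key _ _ (by
          rw [hg]
          exact (congrArg₂ (· ⊔ ·) (hg a) (hg c)).symm)
      map_inf' := fun a c => by
        rw [KS.Iface.mk_inf, ← h2]
        exact key _ _ (by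
          rw [hg]
          exact (congrArg₂ (· ⊓ ·) (hg a) (hg c)).symm) }
  refine hH S I.B f (fun c => ?_) (hS _ _ S.subtype Subtype.val_injective
    (hP J _ fun j => hV _))
  obtain ⟨t, rfl⟩ := I.ind c
  obtain ⟨t, rfl⟩ := h1 t
  exact ⟨⟨ev t, t, rfl⟩, key _ _ (hg _)⟩

/-- Every lattice separated by its homomorphisms to the pentagon has the compact congruences of a
modular lattice that lies in every variety containing the lattices of subspaces. -/
theorem lifts (L : Type) [Lattice L] (hL : InV L) :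
    ∃ (M : Type) (_ : Lattice M), IsModularLattice M ∧
      (∀ V : (α : Type) → [Lattice α] → Prop,
        (∀ (A B : Type) [Lattice A] [Lattice B] (f : LatticeHom A B),
          Function.Surjective f → V A → V B) →
        (∀ (A B : Type) [Lattice A] [Lattice B] (f : LatticeHom A B),
          Function.Injective f → V B → V A) →
        (∀ (I : Type) (A : I → Type) [∀ i, Lattice (A i)], (∀ i, V (A i)) → V (∀ i, A i)) →
        (∀ (E : Type) [AddCommGroup E] [Module Kf E], V (Submodule Kf E)) → V M) ∧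
      Nonempty (CCon L ≃o CCon M) := by
  rcases isEmpty_or_nonempty L with e | ⟨⟨o⟩⟩
  · refine ⟨L, inferInstance, ⟨fun {x} => e.elim x⟩, fun V _ hS _ hV => ?_, ⟨OrderIso.refl _⟩⟩
    exact hS L (Submodule Kf Kf) ⟨⟨fun x => e.elim x, fun x => e.elim x⟩, fun x => e.elim x⟩
      (fun x => e.elim x) (hV Kf)
  · obtain ⟨I, π, h1, h2, h3, h4⟩ := modelSide L
    refine ⟨LE.Con.Quo (I.toMod.null (KS.labA o)), inferInstance,
      LE.modular_of_surj _ (LE.Con.mkQ_surj _) (LE.modular_of_inj (I.toMod.K o).subtype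
        Subtype.val_injective inferInstance), fun V hH hS hP hV => ?_,
      KS.Sys.iso (KS.presA o hL) (I.toMod.pres (KS.labA o))⟩
    exact hH _ _ _ (LE.Con.mkQ_surj _) (hS _ _ (I.toMod.K o).subtype Subtype.val_injective
      (term_mem hH hS hP hV I π h1 h2 h3 h4))

end Pool.Agent.P.MP_4a7a83_al.MF
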